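import Mathlib
import Pool.Agent.Helper126.Sus.Forc

/-!
# General facts on forcing notions with the countable chain condition
-/

namespace Pool.Agent.W876.Two.Gen

open Cardinal Pool.Agent.Helper126.Sus.Forc

set_option linter.unusedSectionVars false

universe u v w

section

variable {P : Type u} [Preorder P]

/-- The relation named by `R` is a function from `X` to `Y`. -/
def IsFun {X : Type v} {Y : Type w} (R : X → Y → Set P) : Set P :=
  fand (fall fun x => fex fun y => meets (R x y))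
    (fall fun x => fall fun y => fall fun y' =>
      fimp (fand (meets (R x y)) (meets (R x y'))) (fground (y = y')))

/-- Every uncountable cardinal of the ground model is a cardinal of the extension: no function
from a set of smaller ground model cardinality `μ` to `ν` is onto. -/
def CardinalsPreserved (P : Type) [Preorder P] : Set P :=
  fall fun μ : Cardinal.{0} => fall fun ν : Cardinal.{0} => fall fun _ : μ < ν =>
    fall fun _ : ℵ₀ < ν =>
      fnot (fex fun R : μ.out → ν.out → Set P =>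
        fand (IsFun R) (fall fun y => fex fun x => meets (R x y)))

end

variable {P : Type} [Preorder P]

/-- uncountably many conditions contain two compatible ones -/
def Ccc (P : Type) [Preorder P] : Prop :=
  ∀ {Y : Type} (f : Y → P), ¬ Countable Y → ∃ y y', y ≠ y' ∧ ∃ s, s ≤ f y ∧ s ≤ f y'

theorem CCC_of (h : Ccc P) : CCC P := by
  intro A hA
  by_contra hcon
  have hcon' : ¬ Countable A := hcon
  obtain ⟨a, b, hab, s, h1, h2⟩ := h (fun a : A => a.1) hcon'
  exact hA a a.2 b b.2 (fun h => hab (Subtype.ext h)) ⟨s, h1, h2⟩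

/-- inside every set there is a countable set such that each member of the set is compatible
with one of them -/
theorem exists_antichain (hP : Ccc P) (D : Set P) :
    ∃ A ⊆ D, A.Countable ∧ ∀ p ∈ D, ∃ a ∈ A, ∃ s, s ≤ a ∧ s ≤ p := by
  obtain ⟨A, hA⟩ := zorn_subset {A : Set P | A ⊆ D ∧ ∀ a ∈ A, ∀ b ∈ A,
      (∃ s, s ≤ a ∧ s ≤ b) → a = b}
    (by
      intro c hc hchain
      refine ⟨⋃₀ c, ⟨Set.sUnion_subset fun s hs => (hc hs).1, ?_⟩,
        fun s hs => Set.subset_sUnion_of_mem hs⟩
      rintro a ⟨s, hs, ha⟩ b ⟨t, ht, hb⟩ hab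
      rcases hchain.total hs ht with h | h
      · exact (hc ht).2 a (h ha) b hb hab
      · exact (hc hs).2 a ha b (h hb) hab)
  refine ⟨A, hA.prop.1, ?_, ?_⟩
  · by_contra hcount
    have hcount' : ¬ Countable A := hcount
    obtain ⟨y, y', hne, h⟩ := hP (fun a : A => a.1) hcount'
    exact hne (Subtype.ext (hA.prop.2 y.1 y.2 y'.1 y'.2 h))
  · intro p hp
    by_contra hcon
    push Not at hcon
    have hpA : p ∉ A := fun hpA => hcon p hpA p le_rfl le_rfl
    have hmem : insert p A ∈ {A : Set P | A ⊆ D ∧ ∀ a ∈ A, ∀ b ∈ A,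
        (∃ s, s ≤ a ∧ s ≤ b) → a = b} := by
      refine ⟨Set.insert_subset hp hA.prop.1, ?_⟩
      rintro a (rfl | ha) b (rfl | hb) ⟨s, h1, h2⟩
      · rfl
      · exact absurd h1 (hcon b hb s h2)
      · exact absurd h2 (hcon a ha s h1)
      · exact hA.prop.2 a ha b hb ⟨s, h1, h2⟩
    exact hpA (hA.le_of_ge hmem (Set.subset_insert p A) (Set.mem_insert p A))

/-- the pigeonhole principle for conditions -/
theorem exists_compat_same (hP : Ccc P) {X Z : Type} (h : #Z * ℵ₀ < #X)
    (f : X → P) (z : X → Z) :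
    ∃ x x', x ≠ x' ∧ z x = z x' ∧ ∃ s, s ≤ f x ∧ s ≤ f x' := by
  have h1 : ∃ c, ¬ Countable {x // z x = c} := by
    by_contra hcon
    push Not at hcon
    have h2 : #X = Cardinal.sum fun c => #{x // z x = c} := by
      rw [← mk_sigma]
      exact (Equiv.sigmaFiberEquiv z).symm.cardinal_eq
    have h3 : #X ≤ #Z * ℵ₀ := by
      rw [h2]
      refine (Cardinal.sum_le_sum _ (fun _ => ℵ₀) fun c => ?_).trans ?_
      · have := hcon c
        exact mk_le_aleph0
      · rw [Cardinal.sum_const']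
    exact absurd h3 (not_le.2 h)
  obtain ⟨c, hc⟩ := h1
  obtain ⟨y, y', hne, hcomp⟩ := hP (fun x : {x // z x = c} => f x.1) hc
  exact ⟨y.1, y'.1, fun h => hne (Subtype.ext h), y.2.trans y'.2.symm, hcomp⟩

theorem down_IsFun {X Z : Type} {R : X → Z → Set P} {p q : P} (h : p ∈ IsFun R) (hq : q ≤ p) :
    q ∈ IsFun R :=
  ⟨fun x => fex_down (h.1 x) hq, fun x y y' => fimp_down (h.2 x y y') hq⟩

theorem not_onto (hP : Ccc P) {X Z : Type} (hμν : #Z < #X) (hν : ℵ₀ < #X)
    (p : P) : p ∈ fnot (fex fun R : Z → X → Set P =>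
      fand (IsFun R) (fall fun y => fex fun x => meets (R x y))) := by
  intro q _ hq
  obtain ⟨r, _, R, hR1, hR2⟩ := mem_fex.1 hq q le_rfl
  choose f hf x hx using fun y => mem_fex.1 (hR2 y) r le_rfl
  obtain ⟨y, y', hne, hz, s, hs1, hs2⟩ :=
    exists_compat_same hP (X := X) (Z := Z) (mul_lt_of_lt hν.le hμν hν) f x
  apply hne
  have h1 : s ∈ meets (R (x y) y) := meets_down (hx y) hs1
  have h2 : s ∈ meets (R (x y) y') := by
    rw [hz]
    exact meets_down (hx y') hs2
  obtain ⟨_, _, h3⟩ := mem_fimp.1 (hR1.2 (x y) y y') s (hs1.trans (hf y)) ⟨h1, h2⟩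
  exact h3

theorem cardinalsPreserved (hP : Ccc P) (p : P) : p ∈ CardinalsPreserved P := by
  intro μ ν hμν hν
  exact not_onto hP (by simpa using hμν) (by simpa using hν) p

theorem meets_fground {h : Prop} {p : P} : p ∈ meets (fground (P := P) h) ↔ h :=
  ⟨fun hp => by obtain ⟨_, _, _, hs, _⟩ := hp p le_rfl; exact hs, fun hp => meets_of_mem hp⟩

/-- for a set closed downwards -/
theorem exists_of_meets {N : Set P} (hN : ∀ p ∈ N, ∀ q ≤ p, q ∈ N) {p : P} (h : p ∈ meets N) :
    ∃ q ≤ p, q ∈ N := by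
  obtain ⟨r, hr, s, hs, hle⟩ := h p le_rfl
  exact ⟨r, hr, hN s hs r hle⟩

theorem mem_fand {φ ψ : Set P} {p : P} : p ∈ fand φ ψ ↔ p ∈ φ ∧ p ∈ ψ := Iff.rfl

end Pool.Agent.W876.Two.Gen
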