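import Mathlib
import Pool.Agent.Helper126.Sus.Forc

/-!
# A finite support iteration adding a colouring of a ladder system with natural numbers and, for
every named colouring with two colours, a uniformizing function
-/

namespace Pool.Agent.W876.Two.Poset

open Cardinal Pool.Agent.Helper126.Sus.Forc

set_option linter.unusedSectionVars false

/-- the places of a coordinate: `co α ξ` is the value at `ξ` of the generic colouring of the
ladder at `α`, `bit ξ` is the value at `ξ` of the uniformizing function, and `pr α` is the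
promise at `α` -/
inductive Tag : Type
  | co : K1 → K1 → Tag
  | bit : K1 → Tag
  | pr : K1 → Tag

@[ext] structure Rep (J : Type) : Type where
  f : J → Tag → Option ℕ
  fin : {x : J × Tag | f x.1 x.2 ≠ none}.Finite

variable {J : Type}

/-- data of an initial stage: valid conditions and the order -/
structure Dat (J : Type) : Type where
  V : Set (Rep J)
  le : Rep J → Rep J → Prop

/-- compatibility at an initial stage -/
def cc (D : Dat J) (q e : Rep J) : Prop := ∃ r ∈ D.V, D.le r q ∧ D.le r e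

variable (C : K1 → Set K1)

/-- the values of the named colouring with two colours can be decided -/
def OKn (N : K1 → K1 → ℕ → Set (Rep J)) (D : Dat J) : Prop :=
  ∀ α ξ, Order.IsSuccLimit α → ξ ∈ C α → ∀ r ∈ D.V, ∃ r' ∈ D.V, D.le r' r ∧ ∃ v < 2,
    ∀ w ≠ v, ∀ e ∈ N α ξ w, ¬ cc D r' e

variable (g : J → K1 → K1 → ℕ → Set (Rep J))

/-- the order at coordinate `j` -/
def LLe (D : Dat J) (j : J) (q p : Rep J) : Prop :=
  (∀ τ v, p.f j τ = some v → q.f j τ = some v) ∧
  ∀ α, p.f j (.pr α) ≠ none → ∀ ξ ∈ C α, ∀ v, q.f j (.bit ξ) = some v →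
    p.f j (.bit ξ) = none → ∀ w ≠ v, ∀ e ∈ g j α ξ w, ¬ cc D q e

variable [LinearOrder J] [WellFoundedLT J]

/-- validity at coordinate `j` -/
def LVal (D : Dat J) (j : J) (p : Rep J) : Prop :=
  (∀ α, p.f j (.pr α) ≠ none → Order.IsSuccLimit α ∧ OKn C (g j) D) ∧
  ∀ α α', p.f j (.pr α) ≠ none → p.f j (.pr α') ≠ none → α ≠ α' → ∀ ξ ∈ C α, ξ ∈ C α' →
    p.f j (.bit ξ) ≠ none

/-- trivial from `j` on -/
def Below (r : Rep J) (j : J) : Prop := ∀ i, j ≤ i → ∀ τ, r.f i τ = none

/-- the data of the stages, by recursion -/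
noncomputable def Data : J → Dat J :=
  WellFoundedLT.fix (motive := fun _ : J => Dat J) fun j D =>
    ⟨{r | Below r j ∧ ∀ i, ∀ h : i < j, LVal C g (D i h) i r},
      fun r q => ∀ i, ∀ h : i < j, LLe C g (D i h) i r q⟩

def Vl (i : J) (r : Rep J) : Prop := LVal C g (Data C g i) i r
def Le (i : J) (r q : Rep J) : Prop := LLe C g (Data C g i) i r q
def CC (i : J) (q e : Rep J) : Prop := cc (Data C g i) q e

theorem Data_eq (j : J) : Data C g j = ⟨{r | Below r j ∧ ∀ i, i < j → Vl C g i r},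
    fun r q => ∀ i, i < j → Le C g i r q⟩ := by
  rw [Data, WellFoundedLT.fix_eq]
  rfl

theorem mem_V {j : J} {r : Rep J} :
    r ∈ (Data C g j).V ↔ Below r j ∧ ∀ i, i < j → Vl C g i r := by
  rw [Data_eq]; rfl

theorem le_D {j : J} {r q : Rep J} : (Data C g j).le r q ↔ ∀ i, i < j → Le C g i r q := by
  rw [Data_eq]

theorem CC_iff {j : J} {q e : Rep J} : CC C g j q e ↔ ∃ r, Below r j ∧
    (∀ i, i < j → Vl C g i r) ∧ (∀ i, i < j → Le C g i r q) ∧ (∀ i, i < j → Le C g i r e) := by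
  unfold CC cc
  simp only [mem_V, le_D]
  constructor
  · rintro ⟨r, ⟨h1, h2⟩, h3, h4⟩; exact ⟨r, h1, h2, h3, h4⟩
  · rintro ⟨r, h1, h2, h3, h4⟩; exact ⟨r, ⟨h1, h2⟩, h3, h4⟩

theorem Le_iff {i : J} {q p : Rep J} : Le C g i q p ↔
    (∀ τ v, p.f i τ = some v → q.f i τ = some v) ∧
    ∀ α, p.f i (.pr α) ≠ none → ∀ ξ ∈ C α, ∀ v, q.f i (.bit ξ) = some v →
      p.f i (.bit ξ) = none → ∀ w ≠ v, ∀ e ∈ g i α ξ w, ¬ CC C g i q e := Iff.rfl

theorem Le_congr_right {i : J} {q p p' : Rep J} (h : p.f i = p'.f i) :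
    Le C g i q p ↔ Le C g i q p' := by
  simp only [Le_iff, h]

theorem CC_mono_of {i : J} {q q' e : Rep J}
    (h : ∀ r, (∀ i', i' < i → Le C g i' r q') → (∀ i', i' < i → Le C g i' r q))
    (hc : CC C g i q' e) : CC C g i q e := by
  rw [CC_iff] at hc ⊢
  obtain ⟨r, h1, h2, h3, h4⟩ := hc
  exact ⟨r, h1, h2, h r h3, h4⟩

theorem CC_congr {i : J} {q q' e : Rep J} (h : ∀ i', i' < i → q.f i' = q'.f i') :
    CC C g i q e ↔ CC C g i q' e :=
  ⟨CC_mono_of C g fun _ hr i' hi' => (Le_congr_right C g (h i' hi')).1 (hr i' hi'),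
   CC_mono_of C g fun _ hr i' hi' => (Le_congr_right C g (h i' hi')).2 (hr i' hi')⟩

theorem Le_trans_of {i : J} {r q p : Rep J} (hc : ∀ e, CC C g i r e → CC C g i q e)
    (h1 : Le C g i r q) (h2 : Le C g i q p) : Le C g i r p := by
  rw [Le_iff] at h1 h2 ⊢
  refine ⟨fun τ v hv => h1.1 τ v (h2.1 τ v hv), fun α hm ξ hξ v hv hn w hw e he hce => ?_⟩
  have hqm : q.f i (.pr α) ≠ none := by
    obtain ⟨m, hm'⟩ := Option.ne_none_iff_exists'.1 hm
    rw [h2.1 _ _ hm']; simp
  by_cases hq : q.f i (.bit ξ) = none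
  · exact h1.2 α hqm ξ hξ v hv hq w hw e he hce
  · obtain ⟨v', hv'⟩ := Option.ne_none_iff_exists'.1 hq
    have h3 := h1.1 _ _ hv'
    rw [hv] at h3
    have h4 : v = v' := Option.some.inj h3
    subst h4
    exact h2.2 α hm ξ hξ v hv' hn w hw e he (hc e hce)

theorem CC_mono {i : J} {q q' e : Rep J} (h : ∀ i', i' < i → Le C g i' q' q)
    (hc : CC C g i q' e) : CC C g i q e := by
  induction i using WellFoundedLT.induction generalizing q q' e with
  | ind i IH =>
    refine CC_mono_of C g (fun r hr i' hi' => ?_) hc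
    refine Le_trans_of C g (fun e he => ?_) (hr i' hi') (h i' hi')
    exact IH i' hi' (fun i'' h'' => hr i'' (h''.trans hi')) he

theorem Le_trans {i : J} {r q p : Rep J} (hb : ∀ i', i' < i → Le C g i' r q)
    (h1 : Le C g i r q) (h2 : Le C g i q p) : Le C g i r p :=
  Le_trans_of C g (fun _ he => CC_mono C g hb he) h1 h2

/-- if the coordinates agree then nothing has to be checked -/
theorem Le_of_eq {i : J} {q p : Rep J} (h : q.f i = p.f i) : Le C g i q p := by
  rw [Le_iff]
  refine ⟨fun τ v hv => by rw [h, hv], fun α _ ξ _ v hv hn => ?_⟩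
  rw [h, hn] at hv
  exact absurd hv (by simp)

theorem Le_of_none {i : J} {q p : Rep J} (h : ∀ τ, p.f i τ = none) : Le C g i q p := by
  rw [Le_iff]
  refine ⟨fun τ v hv => ?_, fun α hm => ?_⟩
  · rw [h] at hv; exact absurd hv (by simp)
  · exact absurd (h _) hm

theorem Vl_congr {i : J} {q p : Rep J} (h : q.f i = p.f i) (hp : Vl C g i p) : Vl C g i q := by
  unfold Vl LVal at *
  rw [h]
  exact hp

/-! ### The poset -/

/-- the conditions -/
def Cd : Type := {r : Rep J // ∀ i, Vl C g i r}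

variable {C g}

instance : Preorder (Cd C g) where
  le r q := ∀ i, Le C g i r.1 q.1
  le_refl r i := Le_of_eq C g rfl
  le_trans a b c hab hbc i := Le_trans C g (fun i' _ => hab i') (hab i) (hbc i)

theorem le_iff {r q : Cd C g} : r ≤ q ↔ ∀ i, Le C g i r.1 q.1 := Iff.rfl

/-- the trivial condition -/
def oneR (J : Type) : Rep J where
  f _ _ := none
  fin := by simp

theorem Vl_none {i : J} {q : Rep J} (h : ∀ τ, q.f i τ = none) : Vl C g i q :=
  ⟨fun _ hα => absurd (h _) hα, fun _ _ hα => absurd (h _) hα⟩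

instance : Nonempty (Cd C g) := ⟨⟨oneR J, fun _ => Vl_none fun _ => rfl⟩⟩

open Classical in
/-- `q` on `T` and `p` outside -/
noncomputable def glue (q p : Rep J) (T : Set J) : Rep J where
  f i τ := if i ∈ T then q.f i τ else p.f i τ
  fin := by
    refine (q.fin.union p.fin).subset fun x hx => ?_
    by_cases h : x.1 ∈ T
    · left; simpa [h] using hx
    · right; simpa [h] using hx

noncomputable def res (p : Rep J) (T : Set J) : Rep J := glue p (oneR J) T

theorem glue_mem {q p : Rep J} {T : Set J} {i : J} (h : i ∈ T) : (glue q p T).f i = q.f i := by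
  funext τ; exact if_pos h

theorem glue_not {q p : Rep J} {T : Set J} {i : J} (h : i ∉ T) : (glue q p T).f i = p.f i := by
  funext τ; exact if_neg h

theorem res_mem {p : Rep J} {T : Set J} {i : J} (h : i ∈ T) : (res p T).f i = p.f i := glue_mem h

theorem res_not {p : Rep J} {T : Set J} {i : J} (h : i ∉ T) (τ : Tag) :
    (res p T).f i τ = none := by
  rw [res, glue_not h]; rfl

theorem Vl_res' {p : Rep J} {T : Set J} (hp : ∀ i ∈ T, Vl C g i p) : ∀ i, Vl C g i (res p T) := by
  intro i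
  by_cases h : i ∈ T
  · exact Vl_congr C g (res_mem h) (hp i h)
  · exact Vl_none fun τ => res_not h τ

theorem Vl_res {p : Rep J} (hp : ∀ i, Vl C g i p) (T : Set J) : ∀ i, Vl C g i (res p T) :=
  Vl_res' fun i _ => hp i

/-- restriction -/
noncomputable def resP (p : Cd C g) (T : Set J) : Cd C g := ⟨res p.1 T, Vl_res p.2 T⟩

theorem le_res (p : Rep J) (T : Set J) (i : J) : Le C g i p (res p T) := by
  by_cases h : i ∈ T
  · exact Le_of_eq C g (res_mem h).symm
  · exact Le_of_none C g fun τ => res_not h τ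

theorem le_resP (p : Cd C g) (T : Set J) : p ≤ resP p T := fun i => le_res p.1 T i

theorem Le_glue {q p : Rep J} {T : Set J} (hT : IsLowerSet T) (h : ∀ i ∈ T, Le C g i q p)
    (i : J) : Le C g i (glue q p T) p := by
  by_cases hi : i ∈ T
  · refine Le_trans C g (q := q) (fun i' h' => ?_) ?_ (h i hi)
    · exact Le_of_eq C g (glue_mem (hT h'.le hi))
    · exact Le_of_eq C g (glue_mem hi)
  · exact Le_of_eq C g (glue_not hi)

theorem Vl_glue {q p : Rep J} {T : Set J} (hq : ∀ i ∈ T, Vl C g i q) (hp : ∀ i, Vl C g i p)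
    (i : J) : Vl C g i (glue q p T) := by
  by_cases hi : i ∈ T
  · exact Vl_congr C g (glue_mem hi) (hq i hi)
  · exact Vl_congr C g (glue_not hi) (hp i)

theorem Le_res_left {r p : Rep J} {i : J} {T : Set J} (hT : IsLowerSet T) (h : Le C g i r p)
    (hi : i ∈ T) : Le C g i (res r T) p := by
  refine Le_trans_of C g (q := r) (fun e he => ?_) (Le_of_eq C g (res_mem hi)) h
  exact (CC_congr C g fun i' h' => res_mem (hT h'.le hi)).1 he

theorem Le_glue_left {q p : Rep J} {T : Set J} (hq : ∀ i ∉ T, ∀ τ, q.f i τ = none) (i : J) :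
    Le C g i (glue q p T) q := by
  by_cases hi : i ∈ T
  · exact Le_of_eq C g (glue_mem hi)
  · exact Le_of_none C g fun τ => hq i hi τ

theorem CC_iff_compat {j : J} {q : Cd C g} {e : Rep J} (he : Below e j) :
    CC C g j q.1 e ↔ ∃ r : Cd C g, r ≤ q ∧ ∀ i, Le C g i r.1 e := by
  rw [CC_iff]
  have hT : IsLowerSet (Set.Iio j) := isLowerSet_Iio j
  constructor
  · rintro ⟨r, h1, h2, h3, h4⟩
    have h1' : ∀ i ∉ Set.Iio j, ∀ τ, r.f i τ = none := fun i hi τ => h1 i (not_lt.1 hi) τ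
    refine ⟨⟨glue r q.1 (Set.Iio j), Vl_glue h2 q.2⟩, Le_glue hT h3, fun i => ?_⟩
    by_cases hi : i < j
    · refine Le_trans C g (q := r) (fun i' _ => Le_glue_left h1' i')
        (Le_of_eq C g (glue_mem hi)) (h4 i hi)
    · exact Le_of_none C g fun τ => he i (not_lt.1 hi) τ
  · rintro ⟨r, h1, h2⟩
    exact ⟨res r.1 (Set.Iio j), fun i hi τ => res_not (T := Set.Iio j) (not_lt.2 hi) τ,
      fun i _ => Vl_res r.2 _ i,
      fun i hi => Le_res_left hT (h1 i) hi, fun i hi => Le_res_left hT (h2 i) hi⟩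

theorem CC_of_le {p q : Cd C g} (h : q ≤ p) {j : J} {e : Rep J} (hc : CC C g j q.1 e) :
    CC C g j p.1 e := CC_mono C g (fun i _ => h i) hc

theorem CC_of_Le {s : Cd C g} {e : Rep J} (h : ∀ i, Le C g i s.1 e) (j : J) :
    CC C g j s.1 e := by
  rw [CC_iff]
  have hT : IsLowerSet (Set.Iio j) := isLowerSet_Iio j
  exact ⟨res s.1 (Set.Iio j), fun i hi τ => res_not (T := Set.Iio j) (not_lt.2 hi) τ,
    fun i _ => Vl_res s.2 _ i,
    fun i hi => Le_res_left hT (Le_of_eq C g rfl) hi, fun i hi => Le_res_left hT (h i) hi⟩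

/-- extending below `j` -/
theorem exists_below_le (p : Cd C g) (j : J) {r : Rep J} (hr : r ∈ (Data C g j).V)
    (hle : ∀ i, i < j → Le C g i r p.1) : ∃ q : Cd C g, q ≤ p ∧
      (∀ i, j ≤ i → q.1.f i = p.1.f i) ∧ ∀ i, i < j → q.1.f i = r.f i := by
  rw [mem_V] at hr
  have hT : IsLowerSet (Set.Iio j) := isLowerSet_Iio j
  exact ⟨⟨glue r p.1 (Set.Iio j), Vl_glue hr.2 p.2⟩, Le_glue hT hle,
    fun i hi => glue_not (not_lt.2 hi), fun i hi => glue_mem hi⟩

theorem res_mem_V (p : Cd C g) (j : J) : res p.1 (Set.Iio j) ∈ (Data C g j).V := by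
  rw [mem_V]
  exact ⟨fun i hi τ => res_not (T := Set.Iio j) (not_lt.2 hi) τ, fun i _ => Vl_res p.2 _ i⟩

/-- deciding a value -/
theorem decide_val (p : Cd C g) (j : J) {N : K1 → K1 → ℕ → Set (Rep J)}
    (hOK : OKn C N (Data C g j)) {α ξ : K1} (hα : Order.IsSuccLimit α) (h : ξ ∈ C α) :
    ∃ q : Cd C g, q ≤ p ∧ (∀ i, j ≤ i → q.1.f i = p.1.f i) ∧ ∃ v < 2, ∀ w ≠ v,
      ∀ e ∈ N α ξ w, ¬ CC C g j q.1 e := by
  obtain ⟨r', hr', hle, v, hv, hB⟩ := hOK α ξ hα h (res p.1 (Set.Iio j)) (res_mem_V p j)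
  rw [le_D] at hle
  obtain ⟨q, h1, h2, h3⟩ := exists_below_le p j hr' fun i hi =>
    (Le_congr_right C g (res_mem (T := Set.Iio j) hi)).1 (hle i hi)
  refine ⟨q, h1, h2, v, hv, fun w hw e he hc => hB w hw e he ?_⟩
  exact (CC_congr C g h3).1 hc

/-! ### Changing one coordinate -/

open Classical in
/-- replace one coordinate -/
noncomputable def setAt (p : Rep J) (j : J) (u : Tag → Option ℕ)
    (hu : {τ | u τ ≠ none}.Finite) : Rep J where
  f i τ := if i = j then u τ else p.f i τ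
  fin := by
    refine (p.fin.union (hu.image fun τ => (j, τ))).subset fun x hx => ?_
    by_cases h : x.1 = j
    · right
      refine ⟨x.2, by simpa [h] using hx, ?_⟩
      rw [← h]
    · left; simpa [h] using hx

theorem setAt_self {p : Rep J} {j : J} {u : Tag → Option ℕ} {hu : {τ | u τ ≠ none}.Finite} :
    (setAt p j u hu).f j = u := by
  funext τ; exact if_pos rfl

theorem setAt_ne {p : Rep J} {j i : J} {u : Tag → Option ℕ} {hu : {τ | u τ ≠ none}.Finite}
    (h : i ≠ j) : (setAt p j u hu).f i = p.f i := by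
  funext τ; exact if_neg h

theorem fin_at (p : Rep J) (j : J) : {τ | p.f j τ ≠ none}.Finite := by
  refine (p.fin.image Prod.snd).subset fun τ hτ => ⟨(j, τ), hτ, rfl⟩

theorem fin_supp (p : Rep J) : {i | ∃ τ, p.f i τ ≠ none}.Finite := by
  refine (p.fin.image Prod.fst).subset ?_
  rintro i ⟨τ, hτ⟩
  exact ⟨(i, τ), hτ, rfl⟩

/-- adding one value -/
theorem add_tag (p : Cd C g) (j : J) (τ : Tag) (hn : p.1.f j τ = none) (k : ℕ)
    (hpr : ∀ α, τ = .pr α → (Order.IsSuccLimit α ∧ OKn C (g j) (Data C g j)) ∧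
      ∀ α', p.1.f j (.pr α') ≠ none → ∀ ξ ∈ C α, ξ ∈ C α' → p.1.f j (.bit ξ) ≠ none)
    (hbit : ∀ ξ, τ = .bit ξ → ∀ α, p.1.f j (.pr α) ≠ none → ξ ∈ C α → ∀ w ≠ k,
      ∀ e ∈ g j α ξ w, ¬ CC C g j p.1 e) :
    ∃ q : Cd C g, q ≤ p ∧ q.1.f j τ = some k ∧ (∀ τ', τ' ≠ τ → q.1.f j τ' = p.1.f j τ') ∧
      ∀ i, i ≠ j → q.1.f i = p.1.f i := by
  classical
  set u : Tag → Option ℕ := fun τ' => if τ' = τ then some k else p.1.f j τ' with hu
  have hself : u τ = some k := if_pos rfl
  have hne : ∀ τ', τ' ≠ τ → u τ' = p.1.f j τ' := fun τ' h => if_neg h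
  have hfin : {τ' | u τ' ≠ none}.Finite := by
    refine ((fin_at p.1 j).union (Set.finite_singleton τ)).subset fun τ' hτ' => ?_
    by_cases h : τ' = τ
    · right; exact h
    · left
      have : u τ' ≠ none := hτ'
      rwa [hne τ' h] at this
  have hge : ∀ τ', p.1.f j τ' ≠ none → u τ' ≠ none := by
    intro τ' h
    by_cases h' : τ' = τ
    · rw [h', hself]; simp
    · rwa [hne τ' h']
  have hle : ∀ i, Le C g i (setAt p.1 j u hfin) p.1 := by
    intro i
    by_cases h : i = j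
    · subst h
      rw [Le_iff]
      refine ⟨fun τ' v hv => ?_, fun α hm ξ hξ v hv hn' w hw e he hc => ?_⟩
      · rw [setAt_self, hne τ', hv]
        rintro rfl
        rw [hn] at hv
        exact absurd hv (by simp)
      · rw [setAt_self] at hv
        by_cases hτ : Tag.bit ξ = τ
        · subst hτ
          rw [hself] at hv
          have hk : k = v := Option.some.inj hv
          subst hk
          refine hbit ξ rfl α hm hξ w hw e he ?_
          exact (CC_congr C g fun i' hi' => setAt_ne (ne_of_lt hi')).1 hc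
        · rw [hne _ hτ, hn'] at hv
          exact absurd hv (by simp)
    · exact Le_of_eq C g (setAt_ne h)
  refine ⟨⟨setAt p.1 j u hfin, fun i => ?_⟩, hle, ?_, fun τ' h => ?_,
    fun i hi => setAt_ne (hu := hfin) hi⟩
  · by_cases h : i = j
    · subst h
      refine ⟨fun α hα => ?_, fun α α' hα hα' hne' ξ hξ hξ' => ?_⟩
      · rw [setAt_self] at hα
        by_cases hτ : Tag.pr α = τ
        · exact (hpr α hτ.symm).1
        · rw [hne _ hτ] at hα
          exact (p.2 i).1 α hα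
      · rw [setAt_self] at hα hα' ⊢
        by_cases hτ : Tag.pr α = τ
        · have hτ' : Tag.pr α' ≠ τ := fun h => hne' (Tag.pr.inj (hτ.trans h.symm))
          rw [hne _ hτ'] at hα'
          exact hge _ ((hpr α hτ.symm).2 α' hα' ξ hξ hξ')
        · rw [hne _ hτ] at hα
          by_cases hτ' : Tag.pr α' = τ
          · exact hge _ ((hpr α' hτ'.symm).2 α hα ξ hξ' hξ)
          · rw [hne _ hτ'] at hα'
            exact hge _ ((p.2 i).2 α α' hα hα' hne' ξ hξ hξ')
    · exact Vl_congr C g (setAt_ne h) (p.2 i)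
  · show (setAt p.1 j u hfin).f j τ = some k
    rw [setAt_self, hself]
  · show (setAt p.1 j u hfin).f j τ' = p.1.f j τ'
    rw [setAt_self, hne τ' h]

/-- a representative valid below `j`, as a condition -/
theorem exists_cd {j : J} {r : Rep J} (hr : r ∈ (Data C g j).V) : ∃ r' : Cd C g, r'.1 = r := by
  rw [mem_V] at hr
  refine ⟨⟨r, fun i => ?_⟩, rfl⟩
  by_cases hi : i < j
  · exact hr.2 i hi
  · exact Vl_none fun τ => hr.1 i (not_lt.1 hi) τ

end Pool.Agent.W876.Two.Poset
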