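import Mathlib
import Pool.Agent.W876.Two.Poset

/-!
# Amalgamation of finitely many conditions
-/

namespace Pool.Agent.W876.Two.Amal

open Cardinal Pool.Agent.Helper126.Sus.Forc Pool.Agent.W876.Two.Poset

set_option linter.unusedSectionVars false

variable {J : Type} {C : K1 → Set K1} {g : J → K1 → K1 → ℕ → Set (Rep J)} [LinearOrder J]
  [WellFoundedLT J]

/-- a finite system of conditions with conflicts only at the finite set `Γ` -/
structure Good (C : K1 → Set K1) (Γ : Finset (J × K1)) (S : Finset ℕ) (p : ℕ → Rep J) :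
    Prop where
  agree : ∀ l ∈ S, ∀ l' ∈ S, ∀ i τ, (p l).f i τ ≠ none → (p l').f i τ ≠ none →
    (p l).f i τ = (p l').f i τ
  bits : ∀ l ∈ S, ∀ l' ∈ S, ∀ i α, (p l).f i (.pr α) ≠ none → ∀ ξ ∈ C α,
    (p l').f i (.bit ξ) ≠ none → (p l).f i (.bit ξ) ≠ none
  conf : ∀ l ∈ S, ∀ l' ∈ S, l ≠ l' → ∀ i α α', (p l).f i (.pr α) ≠ none →
    (p l').f i (.pr α') ≠ none → α ≠ α' → ∀ ξ ∈ C α, ξ ∈ C α' →
      (p l).f i (.bit ξ) = none → (p l').f i (.bit ξ) = none → (i, ξ) ∈ Γ

open Classical in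
/-- the union of finitely many conditions -/
noncomputable def bigU (S : Finset ℕ) (p : ℕ → Rep J) : Rep J where
  f i τ := if h : ∃ l, l ∈ S ∧ (p l).f i τ ≠ none then (p h.choose).f i τ else none
  fin := by
    refine (Set.Finite.biUnion S.finite_toSet fun l _ => (p l).fin).subset fun x hx => ?_
    have hx' : (if h : ∃ l, l ∈ S ∧ (p l).f x.1 x.2 ≠ none then
      (p h.choose).f x.1 x.2 else none) ≠ none := hx
    by_cases h : ∃ l, l ∈ S ∧ (p l).f x.1 x.2 ≠ none
    · obtain ⟨l, hl, hl'⟩ := h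
      exact Set.mem_biUnion (x := l) hl hl'
    · rw [dif_neg h] at hx'
      exact absurd rfl hx'

theorem bigU_ne {S : Finset ℕ} {p : ℕ → Rep J} {i : J} {τ : Tag}
    (h : (bigU S p).f i τ ≠ none) : ∃ l ∈ S, (p l).f i τ ≠ none ∧
      (bigU S p).f i τ = (p l).f i τ := by
  by_cases h' : ∃ l, l ∈ S ∧ (p l).f i τ ≠ none
  · exact ⟨h'.choose, h'.choose_spec.1, h'.choose_spec.2, dif_pos h'⟩
  · exact absurd (dif_neg h') h

theorem bigU_eq {Γ : Finset (J × K1)} {S : Finset ℕ} {p : ℕ → Rep J} (hG : Good C Γ S p)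
    {l : ℕ} (hl : l ∈ S) {i : J} {τ : Tag} (h : (p l).f i τ ≠ none) :
    (bigU S p).f i τ = (p l).f i τ := by
  have h' : ∃ l, l ∈ S ∧ (p l).f i τ ≠ none := ⟨l, hl, h⟩
  have h1 : (bigU S p).f i τ = (p h'.choose).f i τ := dif_pos h'
  rw [h1]
  exact hG.agree _ h'.choose_spec.1 _ hl i τ h'.choose_spec.2 h

theorem bigU_none {S : Finset ℕ} {p : ℕ → Rep J} {i : J} {τ : Tag}
    (h : (bigU S p).f i τ = none) {Γ : Finset (J × K1)} (hG : Good C Γ S p) {l : ℕ}
    (hl : l ∈ S) : (p l).f i τ = none := by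
  by_contra hcon
  rw [bigU_eq hG hl hcon] at h
  exact hcon h

theorem bigU_le {Γ : Finset (J × K1)} {S : Finset ℕ} {p : ℕ → Rep J} (hG : Good C Γ S p)
    {l : ℕ} (hl : l ∈ S) (i : J) : Le C g i (bigU S p) (p l) := by
  rw [Le_iff]
  refine ⟨fun τ v hv => ?_, fun α hα ξ hξ v hv hn => ?_⟩
  · rw [bigU_eq hG hl (by rw [hv]; simp), hv]
  · obtain ⟨l', hl', h1, _⟩ := bigU_ne (S := S) (p := p) (i := i) (τ := .bit ξ)
      (by rw [hv]; simp)
    exact absurd hn (hG.bits l hl l' hl' i α hα ξ hξ h1)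

theorem bigU_Vl {Γ : Finset (J × K1)} {S : Finset ℕ} {p : ℕ → Rep J} (hG : Good C Γ S p)
    {i : J} (hp : ∀ l ∈ S, Vl C g i (p l)) (hΓ : ∀ ξ, (i, ξ) ∉ Γ) : Vl C g i (bigU S p) := by
  refine ⟨fun α hα => ?_, fun α α' hα hα' hne ξ hξ hξ' => ?_⟩
  · obtain ⟨l, hl, h1, _⟩ := bigU_ne hα
    exact (hp l hl).1 α h1
  · obtain ⟨l, hl, h1, _⟩ := bigU_ne hα
    obtain ⟨l', hl', h2, _⟩ := bigU_ne hα'
    intro hn
    have h3 := bigU_none hn hG hl
    have h4 := bigU_none hn hG hl'
    by_cases hll : l = l'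
    · subst hll
      exact (hp l hl).2 α α' h1 h2 hne ξ hξ hξ' h3
    · exact hΓ ξ (hG.conf l hl l' hl' hll i α α' h1 h2 hne ξ hξ hξ' h3 h4)

/-- deciding the values of the named colourings for finitely many conditions -/
theorem decide_all (i : J) (ξ0 : K1) (p : ℕ → Cd C g) (S : Finset ℕ)
    (hno : ∀ l ∈ S, (p l).1.f i (.bit ξ0) = none) (q0 : Cd C g) :
    ∃ q1 : Cd C g, q1 ≤ q0 ∧ ∃ v : ℕ → ℕ, ∀ l ∈ S, v l < 2 ∧ ∀ α,
      (p l).1.f i (.pr α) ≠ none → ξ0 ∈ C α → ∀ w ≠ v l, ∀ e ∈ g i α ξ0 w,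
        ¬ CC C g i q1.1 e := by
  classical
  induction S using Finset.induction_on with
  | empty => exact ⟨q0, le_rfl, fun _ => 0, by simp⟩
  | insert l S hl ih =>
    obtain ⟨q1, h1, v, hv⟩ := ih fun l' hl' => hno l' (Finset.mem_insert_of_mem hl')
    have hnl := hno l (Finset.mem_insert_self _ _)
    have key : ∃ q2 : Cd C g, q2 ≤ q1 ∧ ∃ w0 < 2, ∀ α, (p l).1.f i (.pr α) ≠ none →
        ξ0 ∈ C α → ∀ w ≠ w0, ∀ e ∈ g i α ξ0 w, ¬ CC C g i q2.1 e := by
      by_cases hex : ∃ α, (p l).1.f i (.pr α) ≠ none ∧ ξ0 ∈ C α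
      · obtain ⟨α, hα, hξ⟩ := hex
        obtain ⟨hlim, hOK⟩ := ((p l).2 i).1 α hα
        obtain ⟨q2, h2, _, w0, hw0, h3⟩ := decide_val q1 i hOK hlim hξ
        refine ⟨q2, h2, w0, hw0, fun α' hα' hξ' => ?_⟩
        by_cases hαα : α = α'
        · subst hαα; exact h3
        · exact absurd hnl (((p l).2 i).2 α α' hα hα' hαα ξ0 hξ hξ')
      · exact ⟨q1, le_rfl, 0, by norm_num, fun α hα hξ => absurd ⟨α, hα, hξ⟩ hex⟩
    obtain ⟨q2, h2, w0, hw0, h3⟩ := key
    refine ⟨q2, h2.trans h1, fun l' => if l' = l then w0 else v l', fun l' hl' => ?_⟩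
    rcases Finset.mem_insert.1 hl' with rfl | hl'
    · simp only [if_true]
      exact ⟨hw0, h3⟩
    · have hne : l' ≠ l := fun h => hl (h ▸ hl')
      simp only [if_neg hne]
      exact ⟨(hv l' hl').1, fun α hα hξ w hw e he hc =>
        (hv l' hl').2 α hα hξ w hw e he (CC_of_le h2 hc)⟩

theorem amal : ∀ (n : ℕ) (Γ : Finset (J × K1)), Γ.card = n → ∀ (S : Finset ℕ) (p : ℕ → Cd C g),
    Good C Γ S (fun l => (p l).1) → ∃ S' ⊆ S, S.card ≤ S'.card * 2 ^ n ∧
      ∃ q : Cd C g, ∀ l ∈ S', q ≤ p l := by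
  classical
  intro n
  induction n with
  | zero =>
    intro Γ hΓ S p hG
    rw [Finset.card_eq_zero] at hΓ
    subst hΓ
    refine ⟨S, subset_rfl, by simp, ⟨bigU S fun l => (p l).1, fun i =>
      bigU_Vl hG (fun l _ => (p l).2 i) (by simp)⟩, fun l hl i => bigU_le hG hl i⟩
  | succ n ih =>
    intro Γ hΓ S p hG
    have hne : Γ.Nonempty := by
      rw [← Finset.card_pos, hΓ]; omega
    obtain ⟨⟨i, ξ0⟩, hmem, hmin⟩ := Finset.exists_min_image Γ Prod.fst hne
    have hmin' : ∀ i' < i, ∀ ξ, (i', ξ) ∉ Γ := fun i' hi' ξ h =>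
      absurd (hmin _ h) (not_le.2 hi')
    have hcard : (Γ.erase (i, ξ0)).card = n := by
      rw [Finset.card_erase_of_mem hmem, hΓ]; rfl
    by_cases hA : ∃ l ∈ S, (p l).1.f i (.bit ξ0) ≠ none
    · obtain ⟨l0, hl0, hb⟩ := hA
      have hG' : Good C (Γ.erase (i, ξ0)) S (fun l => (p l).1) := by
        refine ⟨hG.agree, hG.bits, fun l hl l' hl' hll i' α α' hα hα' hne ξ hξ hξ' h3 h4 => ?_⟩
        refine Finset.mem_erase.2 ⟨fun heq => ?_,
          hG.conf l hl l' hl' hll i' α α' hα hα' hne ξ hξ hξ' h3 h4⟩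
        obtain ⟨rfl, rfl⟩ := Prod.mk.inj heq
        exact hG.bits l hl l0 hl0 i' α hα ξ hξ hb h3
      obtain ⟨S', h1, h2, h3⟩ := ih _ hcard S p hG'
      refine ⟨S', h1, h2.trans ?_, h3⟩
      rw [pow_succ]
      have : 0 < 2 ^ n := by positivity
      nlinarith
    · push Not at hA
      -- the union below `i`
      have hV0 : ∀ i', Vl C g i' (res (bigU S fun l => (p l).1) (Set.Iio i)) :=
        Vl_res' fun i' hi' => bigU_Vl hG (fun l _ => (p l).2 i') (hmin' i' hi')
      obtain ⟨q0, hq0⟩ : ∃ q0 : Cd C g, q0.1 = res (bigU S fun l => (p l).1) (Set.Iio i) :=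
        ⟨⟨_, hV0⟩, rfl⟩
      have hq0le : ∀ l ∈ S, ∀ i' < i, Le C g i' q0.1 (p l).1 := fun l hl i' hi' => by
        rw [hq0]
        exact Le_res_left (isLowerSet_Iio i) (bigU_le hG hl i') hi'
      obtain ⟨q1, hq1, v, hv⟩ := decide_all i ξ0 p S hA q0
      have hq1le : ∀ l ∈ S, ∀ i' < i, Le C g i' q1.1 (p l).1 := fun l hl i' hi' =>
        Le_trans C g (fun i'' _ => hq1 i'') (hq1 i') (hq0le l hl i' hi')
      -- the majority
      obtain ⟨v0, hv0⟩ : ∃ v0, S.card ≤ 2 * (S.filter fun l => v l = v0).card := by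
        by_contra hcon
        push Not at hcon
        have h0 := hcon 0
        have h1 := hcon 1
        have h2 : S.card ≤ (S.filter fun l => v l = 0).card +
            (S.filter fun l => v l = 1).card := by
          refine le_trans (Finset.card_le_card ?_) (Finset.card_union_le _ _)
          intro l hl
          have := (hv l hl).1
          rw [Finset.mem_union, Finset.mem_filter, Finset.mem_filter]
          have h3 : v l = 0 ∨ v l = 1 := by omega
          rcases h3 with h3 | h3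
          · exact Or.inl ⟨hl, h3⟩
          · exact Or.inr ⟨hl, h3⟩
        omega
      set S1 := S.filter fun l => v l = v0 with hS1
      have hS1S : S1 ⊆ S := Finset.filter_subset _ _
      have hex : ∀ l, ∃ p' : Cd C g, l ∈ S1 → p' ≤ p l ∧ (∀ i', i < i' → p'.1.f i' = (p l).1.f i') ∧
          (∀ i', i' < i → p'.1.f i' = q1.1.f i') ∧ p'.1.f i (.bit ξ0) = some v0 ∧
          ∀ τ, τ ≠ .bit ξ0 → p'.1.f i τ = (p l).1.f i τ := by
        intro l
        by_cases hl : l ∈ S1
        · have hlS := hS1S hl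
          have hvl : v l = v0 := (Finset.mem_filter.1 hl).2
          obtain ⟨p1, h1, h2, h3⟩ := exists_below_le (p l) i (res_mem_V q1 i) (fun i' hi' =>
            Le_res_left (isLowerSet_Iio i) (hq1le l hlS i' hi') hi')
          have h3' : ∀ i' < i, p1.1.f i' = q1.1.f i' := fun i' hi' => by
            rw [h3 i' hi', res_mem (T := Set.Iio i) hi']
          obtain ⟨p2, h4, h5, h6, h7⟩ := add_tag p1 i (.bit ξ0)
            (by rw [h2 i le_rfl]; exact hA l hlS) v0 (by simp) (by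
              intro ξ hξ α hα hξα w hw e he hc
              have hξ' : ξ0 = ξ := Tag.bit.inj hξ
              subst hξ'
              rw [h2 i le_rfl] at hα
              rw [← hvl] at hw
              exact (hv l hlS).2 α hα hξα w hw e he ((CC_congr C g h3').1 hc))
          refine ⟨p2, fun _ => ⟨h4.trans h1, fun i' hi' => ?_, fun i' hi' => ?_, h5,
            fun τ hτ => ?_⟩⟩
          · rw [h7 i' hi'.ne', h2 i' hi'.le]
          · rw [h7 i' hi'.ne, h3' i' hi']
          · rw [h6 τ hτ, h2 i le_rfl]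
        · exact ⟨p l, fun h => absurd h hl⟩
      choose p' hp' using hex
      have hG' : Good C (Γ.erase (i, ξ0)) S1 (fun l => (p' l).1) := by
        constructor
        · intro l hl l' hl' i' τ h1 h2
          obtain ⟨_, a1, a2, a3, a4⟩ := hp' l hl
          obtain ⟨_, b1, b2, b3, b4⟩ := hp' l' hl'
          rcases lt_trichotomy i' i with hi | hi | hi
          · rw [a2 i' hi, b2 i' hi]
          · subst hi
            by_cases hτ : τ = .bit ξ0
            · rw [hτ, a3, b3]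
            · rw [a4 τ hτ] at h1 ⊢
              rw [b4 τ hτ] at h2 ⊢
              exact hG.agree l (hS1S hl) l' (hS1S hl') i' τ h1 h2
          · rw [a1 i' hi] at h1 ⊢
            rw [b1 i' hi] at h2 ⊢
            exact hG.agree l (hS1S hl) l' (hS1S hl') i' τ h1 h2
        · intro l hl l' hl' i' α hα ξ hξ h2
          obtain ⟨_, a1, a2, a3, a4⟩ := hp' l hl
          obtain ⟨_, b1, b2, b3, b4⟩ := hp' l' hl'
          rcases lt_trichotomy i' i with hi | hi | hi
          · rw [b2 i' hi] at h2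
            rw [a2 i' hi]
            exact h2
          · subst hi
            by_cases hτ : Tag.bit ξ = .bit ξ0
            · rw [hτ, a3]; simp
            · rw [a4 _ hτ]
              rw [b4 _ hτ] at h2
              rw [a4 _ (by simp)] at hα
              exact hG.bits l (hS1S hl) l' (hS1S hl') i' α hα ξ hξ h2
          · rw [a1 i' hi] at hα ⊢
            rw [b1 i' hi] at h2
            exact hG.bits l (hS1S hl) l' (hS1S hl') i' α hα ξ hξ h2
        · intro l hl l' hl' hll i' α α' hα hα' hne ξ hξ hξ' h3 h4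
          obtain ⟨_, a1, a2, a3, a4⟩ := hp' l hl
          obtain ⟨_, b1, b2, b3, b4⟩ := hp' l' hl'
          rcases lt_trichotomy i' i with hi | hi | hi
          · rw [a2 i' hi] at hα h3
            rw [b2 i' hi] at hα'
            exact absurd h3 ((q1.2 i').2 α α' hα hα' hne ξ hξ hξ')
          · subst hi
            have hτ : Tag.bit ξ ≠ .bit ξ0 := by
              intro hτ
              rw [hτ, a3] at h3
              exact absurd h3 (by simp)
            rw [a4 _ hτ] at h3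
            rw [b4 _ hτ] at h4
            rw [a4 _ (by simp)] at hα
            rw [b4 _ (by simp)] at hα'
            refine Finset.mem_erase.2 ⟨fun heq => ?_,
              hG.conf l (hS1S hl) l' (hS1S hl') hll i' α α' hα hα' hne ξ hξ hξ' h3 h4⟩
            exact hτ (by rw [(Prod.mk.inj heq).2])
          · rw [a1 i' hi] at hα h3
            rw [b1 i' hi] at hα' h4
            refine Finset.mem_erase.2 ⟨fun heq => ?_,
              hG.conf l (hS1S hl) l' (hS1S hl') hll i' α α' hα hα' hne ξ hξ hξ' h3 h4⟩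
            exact hi.ne' (Prod.mk.inj heq).1
      obtain ⟨S', h1, h2, q, hq⟩ := ih _ hcard S1 p' hG'
      refine ⟨S', h1.trans hS1S, ?_, q, fun l hl => (hq l hl).trans (hp' l (h1 hl)).1⟩
      calc S.card ≤ 2 * S1.card := hv0
        _ ≤ 2 * (S'.card * 2 ^ n) := by omega
        _ = S'.card * 2 ^ (n + 1) := by ring

end Pool.Agent.W876.Two.Amal
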