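import Mathlib
import Pool.Agent.Helper761.Omega1
import Pool.Agent.W876.Prox.Omega
import Pool.Agent.W876.Two.Amal

/-!
# Finding systems of conditions which can be amalgamated
-/

namespace Pool.Agent.W876.Two.Comb

open Cardinal Pool.Agent.Helper126.Sus.Forc Pool.Agent.Helper761.Om Pool.Agent.W876.Two.Poset
  Pool.Agent.W876.Two.Amal

open Pool.Agent.W876.Prox.Omega (mk_K1 countable_Iio countable_Iic bounded bounded_finite press
  bounded_below countable_finset)

set_option linter.unusedSectionVars false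

variable {J : Type} {C : K1 → Set K1} {g : J → K1 → K1 → ℕ → Set (Rep J)} [LinearOrder J]
  [WellFoundedLT J]

/-- the ordinal of a place -/
noncomputable def lv : Tag → K1
  | .co α ξ => max α ξ
  | .bit ξ => ξ
  | .pr α => α

theorem countable_lv (α : K1) : {τ | lv τ ≤ α}.Countable := by
  have h1 : {τ | lv τ ≤ α} ⊆ (Set.range fun x : Set.Iic α × Set.Iic α => Tag.co x.1 x.2) ∪
      ((Set.range fun x : Set.Iic α => Tag.bit x.1) ∪
        Set.range fun x : Set.Iic α => Tag.pr x.1) := by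
    intro τ hτ
    cases τ with
    | co x y =>
      have h : max x y ≤ α := hτ
      left
      exact ⟨(⟨x, (le_max_left _ _).trans h⟩, ⟨y, (le_max_right _ _).trans h⟩), rfl⟩
    | bit x => right; left; exact ⟨⟨x, hτ⟩, rfl⟩
    | pr x => right; right; exact ⟨⟨x, hτ⟩, rfl⟩
  have : Countable (Set.Iic α) := countable_Iic α
  exact ((Set.countable_range _).union ((Set.countable_range _).union
    (Set.countable_range _))).mono h1

theorem countable_rep {X : Set (J × Tag)} (hX : X.Countable) :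
    {e : Rep J | ∀ i τ, e.f i τ ≠ none → (i, τ) ∈ X}.Countable := by
  let gr : Rep J → Set ((J × Tag) × ℕ) := fun e => {x | e.f x.1.1 x.1.2 = some x.2}
  have hinj : Function.Injective gr := by
    intro e e' h
    have h1 : ∀ i τ v, e.f i τ = some v ↔ e'.f i τ = some v := by
      intro i τ v
      have := congrArg (fun S => ((i, τ), v) ∈ S) h
      simpa [gr] using this
    ext1
    funext i τ
    cases hr : e.f i τ with
    | some v => exact ((h1 i τ v).1 hr).symm
    | none =>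
      cases hr' : e'.f i τ with
      | some v =>
        rw [← h1] at hr'
        rw [hr] at hr'
        exact absurd hr' (by simp)
      | none => rfl
  have hc : {x : (J × Tag) × ℕ | x.1 ∈ X}.Countable := by
    have := hX.prod (Set.countable_univ (α := ℕ))
    exact this.mono fun x hx => Set.mem_prod.2 ⟨hx, Set.mem_univ _⟩
  have h := Set.countable_ofPred_finite_subset hc
  refine (h.preimage_of_injOn (f := gr) hinj.injOn).mono ?_
  intro e h2
  refine ⟨?_, fun x hx => h2 x.1.1 x.1.2 (by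
    have : e.f x.1.1 x.1.2 = some x.2 := hx
    rw [this]; simp)⟩
  refine Set.Finite.of_finite_image (f := Prod.fst) (e.fin.subset ?_) ?_
  · rintro _ ⟨x, hx, rfl⟩
    have : e.f x.1.1 x.1.2 = some x.2 := hx
    show e.f x.1.1 x.1.2 ≠ none
    rw [this]; simp
  · rintro ⟨x, v⟩ hx ⟨y, w⟩ hy hxy
    have hxy' : x = y := hxy
    subst hxy'
    have h1 : e.f x.1 x.2 = some v := hx
    have h2 : e.f x.1 x.2 = some w := hy
    rw [h1] at h2
    rw [Option.some.inj h2]

/-- the coordinate `i` occurs in `p ξ` -/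
def Seen (p : K1 → Cd C g) (i : J) (ξ : K1) : Prop := ∃ τ, (p ξ).1.f i τ ≠ none

/-- the root -/
theorem exists_root (j0 : J) {Z : Set K1} (hZ : ∀ a, ∃ b ∈ Z, a ≤ b) (p : K1 → Cd C g) :
    ∃ F : Finset J, ∃ e : Rep J, j0 ∈ F ∧ ∀ b, ∃ δ, b < δ ∧
      (∀ i τ, e.f i τ ≠ none → lv τ < δ) ∧ ∃ ξ ∈ Z, δ ≤ ξ ∧
        (∀ i, Seen p i ξ → (∃ ξ' < δ, Seen p i ξ') → i ∈ F) ∧
        ∀ i ∈ F, ∀ τ, lv τ < δ → (p ξ).1.f i τ = e.f i τ := by
  classical
  obtain ⟨⟨F, e⟩, he⟩ := press (E := Finset J × Rep J)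
    (fun a => {x | (∀ i ∈ x.1, i = j0 ∨ ∃ ξ ≤ a, Seen p i ξ) ∧
      ∀ i τ, x.2.f i τ ≠ none → (i = j0 ∨ ∃ ξ ≤ a, Seen p i ξ) ∧ lv τ ≤ a})
    (by
      intro a
      have h1 : {i | i = j0 ∨ ∃ ξ ≤ a, Seen p i ξ}.Countable := by
        have h2 : (⋃ ξ ∈ Set.Iic a, {i | ∃ τ, (p ξ).1.f i τ ≠ none}).Countable :=
          (countable_Iic a).biUnion fun ξ _ => (fin_supp (p ξ).1).countable
        refine ((Set.countable_singleton j0).union h2).mono fun i hi => ?_
        rcases hi with hi | ⟨ξ, hξ, h3⟩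
        · exact Or.inl hi
        · exact Or.inr (Set.mem_biUnion (x := ξ) hξ h3)
      have h2 : {F : Finset J | ∀ i ∈ F, i = j0 ∨ ∃ ξ ≤ a, Seen p i ξ}.Countable := by
        have h3 := Set.countable_ofPred_finite_subset h1
        refine (h3.preimage_of_injOn (f := fun F : Finset J => (F : Set J))
          (Finset.coe_injective.injOn)).mono fun F hF => ?_
        exact ⟨F.finite_toSet, fun i hi => hF i hi⟩
      have h3 := countable_rep (h1.prod (countable_lv a))
      refine (h2.prod h3).mono fun x hx => ?_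
      rw [Set.mem_prod]
      exact ⟨hx.1, fun i τ hi => Set.mem_prod.2 ⟨(hx.2 i τ hi).1, (hx.2 i τ hi).2⟩⟩)
    (fun δ x => j0 ∈ x.1 ∧ (∀ i τ, x.2.f i τ ≠ none → lv τ < δ) ∧ ∃ ξ ∈ Z, δ ≤ ξ ∧
        (∀ i, Seen p i ξ → (∃ ξ' < δ, Seen p i ξ') → i ∈ x.1) ∧
        ∀ i ∈ x.1, ∀ τ, lv τ < δ → (p ξ).1.f i τ = x.2.f i τ)
    (by
      intro δ hδ
      obtain ⟨ξ, hξ, hle⟩ := hZ δ
      have hfin : {i | Seen p i ξ ∧ ∃ ξ' < δ, Seen p i ξ'}.Finite :=
        (fin_supp (p ξ).1).subset fun i hi => hi.1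
      have hch : ∀ i : J, ∃ ξ' : K1, (∃ ξ' < δ, Seen p i ξ') → ξ' < δ ∧ Seen p i ξ' := by
        intro i
        by_cases h1 : ∃ ξ' < δ, Seen p i ξ'
        · obtain ⟨ξ', h2, h3⟩ := h1
          exact ⟨ξ', fun _ => ⟨h2, h3⟩⟩
        · exact ⟨δ, fun h2 => absurd h2 h1⟩
      choose c hc using hch
      set F : Finset J := insert j0 hfin.toFinset with hF
      let ef : J → Tag → Option ℕ := fun i τ =>
        if i ∈ F ∧ lv τ < δ then (p ξ).1.f i τ else none
      have hef : ∀ i τ, ef i τ ≠ none → i ∈ F ∧ lv τ < δ ∧ (p ξ).1.f i τ ≠ none := by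
        intro i τ h
        by_cases h1 : i ∈ F ∧ lv τ < δ
        · exact ⟨h1.1, h1.2, by simpa [ef, h1] using h⟩
        · exact absurd (if_neg h1) h
      let e : Rep J := ⟨ef, (p ξ).1.fin.subset fun x hx => (hef x.1 x.2 hx).2.2⟩
      obtain ⟨b, hb, hb'⟩ := bounded_below hδ
        (c '' {i | Seen p i ξ ∧ ∃ ξ' < δ, Seen p i ξ'} ∪
          (fun x : J × Tag => lv x.2) '' {x | (p ξ).1.f x.1 x.2 ≠ none})
        ((hfin.image c).union ((p ξ).1.fin.image _))
      have hFb : ∀ i ∈ F, i = j0 ∨ ∃ ξ' ≤ b, Seen p i ξ' := by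
        intro i hi
        rcases Finset.mem_insert.1 hi with hi | hi
        · exact Or.inl hi
        · have hi' := hfin.mem_toFinset.1 hi
          exact Or.inr ⟨c i, hb' _ (Or.inl ⟨i, hi', rfl⟩) (hc i hi'.2).1, (hc i hi'.2).2⟩
      refine ⟨b, hb, (F, e), ⟨hFb, fun i τ h => ?_⟩, Finset.mem_insert_self _ _,
        fun i τ h => (hef i τ h).2.1, ξ, hξ, hle, fun i h1 h2 => ?_, fun i hi τ hτ => ?_⟩
      · obtain ⟨h1, h2, h3⟩ := hef i τ h
        exact ⟨hFb i h1, hb' _ (Or.inr ⟨(i, τ), h3, rfl⟩) h2⟩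
      · exact Finset.mem_insert_of_mem (hfin.mem_toFinset.2 ⟨h1, h2⟩)
      · show (p ξ).1.f i τ = if i ∈ F ∧ lv τ < δ then (p ξ).1.f i τ else none
        rw [if_pos ⟨hi, hτ⟩])
  obtain ⟨_, _, _, hj0, _⟩ := he (Classical.arbitrary K1)
  refine ⟨F, e, hj0, fun b => ?_⟩
  obtain ⟨δ, h1, _, _, h2, h3⟩ := he b
  exact ⟨δ, h1, h2, h3⟩

/-- the root and the places of the conflicts -/
theorem exists_root2 (hC : IsLadder C) (j0 : J) {Z : Set K1} (hZ : ∀ a, ∃ b ∈ Z, a ≤ b)
    (p : K1 → Cd C g) :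
    ∃ F : Finset J, ∃ e : Rep J, ∃ D : Finset K1, j0 ∈ F ∧ ∀ b, ∃ η δ, b < η ∧ η < δ ∧
      (∀ y ∈ D, y < η) ∧ (∀ i τ, e.f i τ ≠ none → lv τ < δ) ∧ ∃ ξ ∈ Z, δ ≤ ξ ∧
        (∀ i, Seen p i ξ → (∃ ξ' < δ, Seen p i ξ') → i ∈ F) ∧
        (∀ i ∈ F, ∀ τ, lv τ < δ → (p ξ).1.f i τ = e.f i τ) ∧
        ∀ i α, (p ξ).1.f i (.pr α) ≠ none → δ ≤ α → ∀ y ∈ C α, y < η → y ∈ D := by
  classical
  obtain ⟨F, e, hj0, he⟩ := exists_root j0 hZ p
  obtain ⟨D, hD⟩ := press (E := Finset K1) (fun a => {x | ∀ y ∈ x, y ≤ a}) countable_finset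
    (fun η D => (∀ y ∈ D, y < η) ∧ ∃ δ, η < δ ∧ (∀ i τ, e.f i τ ≠ none → lv τ < δ) ∧
      ∃ ξ ∈ Z, δ ≤ ξ ∧
        (∀ i, Seen p i ξ → (∃ ξ' < δ, Seen p i ξ') → i ∈ F) ∧
        (∀ i ∈ F, ∀ τ, lv τ < δ → (p ξ).1.f i τ = e.f i τ) ∧
        ∀ i α, (p ξ).1.f i (.pr α) ≠ none → δ ≤ α → ∀ y ∈ C α, y < η → y ∈ D)
    (by
      intro η hη
      obtain ⟨δ, h1, h2, ξ, h3, h4, h5, h6⟩ := he η
      have hfin : (⋃ x ∈ {x : J × Tag | (p ξ).1.f x.1 x.2 ≠ none},
          {y | ∃ α, x.2 = .pr α ∧ δ ≤ α ∧ y ∈ C α ∧ y < η}).Finite := by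
        refine (p ξ).1.fin.biUnion fun x hx => ?_
        obtain ⟨i, τ⟩ := x
        cases τ with
        | co a b => exact Set.finite_empty.subset fun y hy => by simp at hy
        | bit a => exact Set.finite_empty.subset fun y hy => by simp at hy
        | pr a =>
          by_cases ha : δ ≤ a
          · have hlim := (((p ξ).2 i).1 a hx).1
            refine (hC.finite a hlim η (h1.trans_le ha)).subset ?_
            rintro y ⟨α, hα, _, hy, hyη⟩
            have : a = α := Tag.pr.inj hα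
            subst this
            exact ⟨hy, hyη⟩
          · refine Set.finite_empty.subset ?_
            rintro y ⟨α, hα, hδα, _⟩
            have : a = α := Tag.pr.inj hα
            subst this
            exact absurd hδα ha
      obtain ⟨b, hb, hb'⟩ := bounded_below hη _ hfin
      have hmem : ∀ y ∈ hfin.toFinset, y < η := by
        intro y hy
        have hy' := hfin.mem_toFinset.1 hy
        simp only [Set.mem_iUnion] at hy'
        obtain ⟨_, _, α, _, _, _, h⟩ := hy'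
        exact h
      refine ⟨b, hb, hfin.toFinset, fun y hy => hb' y (hfin.mem_toFinset.1 hy) (hmem y hy), hmem,
        δ, h1, h2, ξ, h3, h4, h5, h6, fun i α hα hδ y hy hyη => ?_⟩
      exact hfin.mem_toFinset.2 (Set.mem_biUnion (x := (i, Tag.pr α)) hα ⟨α, rfl, hδ, hy, hyη⟩))
  refine ⟨F, e, D, hj0, fun b => ?_⟩
  obtain ⟨η, h1, _, h2, δ, h3, h4, h5⟩ := hD b
  exact ⟨η, δ, h1, h3, h2, h4, h5⟩

/-- an infinite system of conditions which can be amalgamated -/
theorem exists_good (hC : IsLadder C) (j0 : J) {Z : Set K1} (hZ : ∀ a, ∃ b ∈ Z, a ≤ b)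
    (p : K1 → Cd C g) : ∃ Γ : Finset (J × K1), ∃ x : ℕ → K1, StrictMono x ∧ (∀ n, x n ∈ Z) ∧
      (∀ n m, n ≠ m → ∀ τ, (p (x n)).1.f j0 τ ≠ none → lv τ ≠ x m) ∧
      ∀ S, Good C Γ S (fun n => (p (x n)).1) := by
  classical
  obtain ⟨F, e, D, hj0, he⟩ := exists_root2 hC j0 hZ p
  choose ηf δf h1 h2 h3 h4 ξf h5 h6 h7 h8 h9 using he
  choose B hB using fun ξ => bounded_finite
    ((fun x : J × Tag => lv x.2) '' {x | (p ξ).1.f x.1 x.2 ≠ none}) ((p ξ).1.fin.image _)
  let h : K1 → K1 := fun b => max (ξf b) (B (ξf b))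
  let s : ℕ → K1 := fun n => h^[n] (Classical.arbitrary K1)
  have hs : ∀ n, s (n + 1) = h (s n) := fun n => Function.iterate_succ_apply' h n _
  have hbξ : ∀ b, b < ξf b := fun b => (h1 b).trans ((h2 b).trans_le (h6 b))
  have hsm : StrictMono s := strictMono_nat_of_lt_succ fun n => by
    rw [hs]
    exact (hbξ _).trans_le (le_max_left _ _)
  have hxs : ∀ n m, n < m → ξf (s n) ≤ s m := fun n m hnm =>
    ((le_max_left _ _).trans (hs n).ge).trans (hsm.monotone hnm)
  have hlow : ∀ n m, n < m → ∀ i τ, (p (ξf (s n))).1.f i τ ≠ none → lv τ < s m := by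
    intro n m hnm i τ hτ
    refine (hB (ξf (s n)) _ ⟨(i, τ), hτ, rfl⟩).trans_le ?_
    exact ((le_max_right _ _).trans (hs n).ge).trans (hsm.monotone hnm)
  have hlowδ : ∀ n m, n < m → ∀ i τ, (p (ξf (s n))).1.f i τ ≠ none → lv τ < δf (s m) :=
    fun n m hnm i τ hτ => ((hlow n m hnm i τ hτ).trans (h1 _)).trans (h2 _)
  have hseen : ∀ n m, n < m → ∀ i τ τ', (p (ξf (s n))).1.f i τ ≠ none →
      (p (ξf (s m))).1.f i τ' ≠ none → i ∈ F := by
    intro n m hnm i τ τ' ha hb
    refine h7 (s m) i ⟨τ', hb⟩ ⟨ξf (s n), ?_, τ, ha⟩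
    exact ((hxs n m hnm).trans_lt (h1 _)).trans (h2 _)
  have hold : ∀ n i τ, i ∈ F → e.f i τ ≠ none → (p (ξf (s n))).1.f i τ = e.f i τ :=
    fun n i τ hi hτ => h8 (s n) i hi τ (h4 (s n) i τ hτ)
  have hagree : ∀ n m, n < m → ∀ i τ, (p (ξf (s n))).1.f i τ ≠ none →
      (p (ξf (s m))).1.f i τ ≠ none → (p (ξf (s n))).1.f i τ = (p (ξf (s m))).1.f i τ := by
    intro n m hnm i τ ha hb
    have hi := hseen n m hnm i τ τ ha hb
    have h10 := h8 (s m) i hi τ (hlowδ n m hnm i τ ha)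
    rw [h10] at hb ⊢
    exact hold n i τ hi hb
  refine ⟨F ×ˢ D, fun n => ξf (s n), ?_, fun n => h5 _, fun n m hnm τ hτ heq => ?_, fun S => ?_⟩
  · exact strictMono_nat_of_lt_succ fun n => (hxs n (n + 1) n.lt_succ_self).trans_lt (hbξ _)
  · rcases lt_or_gt_of_ne hnm with h10 | h10
    · have := (hlow n m h10 j0 τ hτ).trans (hbξ _)
      exact absurd heq this.ne
    · have h11 : lv τ < δf (s n) := by
        rw [heq]
        exact ((hxs m n h10).trans_lt (h1 _)).trans (h2 _)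
      have h12 := h8 (s n) j0 hj0 τ h11
      rw [h12] at hτ
      have h13 := (h4 (s m) j0 τ hτ).trans_le (h6 _)
      exact absurd heq h13.ne
  · refine ⟨fun n _ m _ i τ ha hb => ?_, fun n _ m _ i α hα ξ hξ hb => ?_,
      fun n _ m _ hnm i α α' hα hα' hne ξ hξ hξ' ha hb => ?_⟩
    · rcases lt_trichotomy n m with h10 | h10 | h10
      · exact hagree n m h10 i τ ha hb
      · rw [h10]
      · exact (hagree m n h10 i τ hb ha).symm
    · have hlimα : Order.IsSuccLimit α := (((p (ξf (s n))).2 i).1 α hα).1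
      rcases lt_trichotomy n m with h10 | h10 | h10
      · have hi := hseen n m h10 i _ _ hα hb
        have h11 : ξ < α := hC.lt α hlimα ξ hξ
        have h12 : lv (.bit ξ) < δf (s m) := by
          refine lt_trans ?_ (hlowδ n m h10 i _ hα)
          exact h11
        have h13 := h8 (s m) i hi _ h12
        simp only at hb ⊢
        rw [h13] at hb
        rw [hold n i _ hi hb]
        exact hb
      · rw [h10]; exact hb
      · have hi := hseen m n h10 i _ _ hb hα
        by_cases h11 : α < δf (s n)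
        · have h12 := h8 (s n) i hi (.pr α) h11
          simp only at hα
          rw [h12] at hα
          have h13 : α < δf (s m) := h4 (s m) i _ hα
          have h14 : ξ < α := hC.lt α hlimα ξ hξ
          have h15 := h8 (s m) i hi (.bit ξ) (h14.trans h13)
          simp only at hb ⊢
          rw [h15] at hb
          rw [hold n i _ hi hb]
          exact hb
        · have h12 : ξ < ηf (s n) := (hlow m n h10 i _ hb).trans (h1 _)
          have h13 := h9 (s n) i α hα (not_lt.1 h11) ξ hξ h12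
          have h14 : ξ < δf (s m) := (h3 (s m) ξ h13).trans (h2 _)
          have h15 := h8 (s m) i hi (.bit ξ) h14
          simp only at hb ⊢
          rw [h15] at hb
          rw [hold n i _ hi hb]
          exact hb
    · -- conflicts
      have key : ∀ n m, n < m → ∀ α α', (p (ξf (s n))).1.f i (.pr α) ≠ none →
          (p (ξf (s m))).1.f i (.pr α') ≠ none → α ≠ α' → ξ ∈ C α → ξ ∈ C α' →
          (p (ξf (s n))).1.f i (.bit ξ) = none → (i, ξ) ∈ F ×ˢ D := by
        intro n m h10 α α' hα hα' hne hξ hξ' ha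
        have hi := hseen n m h10 i _ _ hα hα'
        have hlimα : Order.IsSuccLimit α := (((p (ξf (s n))).2 i).1 α hα).1
        have h11 : ξ < α := hC.lt α hlimα ξ hξ
        by_cases h12 : α' < δf (s m)
        · have h13 := h8 (s m) i hi (.pr α') h12
          rw [h13] at hα'
          have h14 : (p (ξf (s n))).1.f i (.pr α') ≠ none := by
            rw [hold n i _ hi hα']; exact hα'
          exact absurd ha (((p (ξf (s n))).2 i).2 α α' hα h14 hne ξ hξ hξ')
        · refine Finset.mem_product.2 ⟨hi, h9 (s m) i α' hα' (not_lt.1 h12) ξ hξ' ?_⟩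
          exact (h11.trans (hlow n m h10 i _ hα)).trans (h1 _)
      rcases lt_or_gt_of_ne hnm with h10 | h10
      · exact key n m h10 α α' hα hα' hne hξ hξ' ha
      · exact key m n h10 α' α hα' hα hne.symm hξ' hξ hb

/-- the countable chain condition -/
theorem cond_ccc (hC : IsLadder C) [Nonempty J] {Y : Type} (f : Y → Cd C g)
    (hY : ¬ Countable Y) : ∃ y y', y ≠ y' ∧ ∃ s, s ≤ f y ∧ s ≤ f y' := by
  have h : #K1 ≤ #Y := by
    rw [mk_K1, ← succ_aleph0]
    rw [← mk_le_aleph0_iff, not_le] at hY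
    exact Order.succ_le_of_lt hY
  obtain ⟨ι⟩ := h
  obtain ⟨Γ, x, hx, _, _, hG⟩ := exists_good hC (Classical.arbitrary J) (Z := Set.univ)
    (fun a => ⟨a, trivial, le_rfl⟩) (fun ξ => f (ι ξ))
  obtain ⟨S', _, hS', q, hq⟩ := amal Γ.card Γ rfl (Finset.range (2 ^ Γ.card + 1)) _ (hG _)
  rw [Finset.card_range] at hS'
  have h2 : 1 < S'.card := by
    by_contra hcon
    push Not at hcon
    have : S'.card * 2 ^ Γ.card ≤ 1 * 2 ^ Γ.card := Nat.mul_le_mul_right _ hcon
    omega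
  obtain ⟨n, hn, m, hm, hnm⟩ := Finset.one_lt_card.1 h2
  exact ⟨ι (x n), ι (x m), fun h => hnm (hx.injective (ι.injective h)), q, hq n hn, hq m hm⟩

end Pool.Agent.W876.Two.Comb
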