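import Mathlib
import Pool.Agent.Helper539.AuerWalk
import Pool.Agent.W876.Prox.Omega
import Pool.Agent.W876.Two.Gen

/-!
# Trees of the ground model
-/

namespace Pool.Agent.W876.Two.Tree

open Cardinal Pool.Agent.Helper126.Sus.Forc Pool.Agent.W876.Two.Gen

open Pool.Agent.W876.Prox.Omega (mk_K1 countable_Iio countable_Iic bounded bounded_finite)

set_option linter.unusedSectionVars false

/-- a tree of height `ω₁` with countable levels -/
structure GTree {T : Type} (lt : T → T → Prop) (ht : T → K1) : Prop where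
  trans : ∀ x y z, lt x y → lt y z → lt x z
  lt_ht : ∀ x y, lt x y → ht x < ht y
  unique : ∀ x y z, lt x z → lt y z → ht x = ht y → x = y
  pred : ∀ y ξ, ξ < ht y → ∃ x, ht x = ξ ∧ lt x y
  tall : ∀ ξ, ∃ x, ht x = ξ
  level : ∀ ξ, {x | ht x = ξ}.Countable

variable {P : Type} [Preorder P] {T : Type} {lt : T → T → Prop} {ht : T → K1}

/-- the name of a relation of the ground model -/
def nm (P : Type) (lt : T → T → Prop) (x y : T) : Set P := fground (lt x y)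

theorem mem_nm {x y : T} {p : P} : p ∈ meets (nm P lt x y) ↔ lt x y := meets_fground

theorem gtree_of (h1 : ∀ ξ, {x | ht x = ξ}.Countable) {p : P}
    (h : p ∈ IsTree (nm P lt) ht) : GTree lt ht := by
  obtain ⟨h2, ⟨h3, h4⟩, h5, h6⟩ := h
  refine ⟨fun x y z hxy hyz => ?_, fun x y hxy => ?_, fun x y z hxz hyz hh => ?_,
    fun y ξ hξ => ?_, fun ξ => h6 ξ, h1⟩
  · obtain ⟨r, _, hr⟩ := mem_fimp.1 (h2 x y z) p le_rfl ⟨mem_nm.2 hxy, mem_nm.2 hyz⟩
    exact mem_nm.1 hr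
  · obtain ⟨r, _, hr⟩ := mem_fimp.1 (h3 x y) p le_rfl (mem_nm.2 hxy)
    exact hr
  · obtain ⟨r, _, hr⟩ := mem_fimp.1 (h4 x y z) p le_rfl ⟨mem_nm.2 hxz, mem_nm.2 hyz⟩
    exact hr hh
  · obtain ⟨r, _, x, hx1, hx2⟩ := mem_fex.1 (h5 y ξ hξ) p le_rfl
    exact ⟨x, hx1, mem_nm.1 hx2⟩

theorem isTree (hT : GTree lt ht) (p : P) : p ∈ IsTree (nm P lt) ht := by
  refine ⟨fun x y z => ?_, ⟨fun x y => ?_, fun x y z => ?_⟩, fun y ξ hξ => ?_, fun ξ => hT.tall ξ⟩
  · exact mem_fimp.2 fun q _ hq =>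
      ⟨q, le_rfl, mem_nm.2 (hT.trans x y z (mem_nm.1 hq.1) (mem_nm.1 hq.2))⟩
  · exact mem_fimp.2 fun q _ hq => ⟨q, le_rfl, hT.lt_ht x y (mem_nm.1 hq)⟩
  · exact mem_fimp.2 fun q _ hq => ⟨q, le_rfl, fun hh =>
      hT.unique x y z (mem_nm.1 hq.1) (mem_nm.1 hq.2) hh⟩
  · obtain ⟨x, hx1, hx2⟩ := hT.pred y ξ hξ
    exact mem_fex.2 fun q _ => ⟨q, le_rfl, x, hx1, mem_nm.2 hx2⟩

/-- a node with extensions of arbitrarily large height -/
def Big (lt : T → T → Prop) (ht : T → K1) (x : T) : Prop := ∀ μ, ∃ y, μ < ht y ∧ lt x y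

theorem Big.pred (hT : GTree lt ht) {x y : T} (h : lt x y) (hy : Big lt ht y) :
    Big lt ht x := fun μ => by
  obtain ⟨z, h1, h2⟩ := hy μ
  exact ⟨z, h1, hT.trans x y z h h2⟩

/-- the level `ν` has a big node below any set of nodes of unbounded height -/
theorem exists_big_level (hT : GTree lt ht) (ν : K1) (S : Set T)
    (hS : ∀ μ, ∃ z ∈ S, μ < ht z) : ∃ y, ht y = ν ∧ Big lt ht y ∧ ∃ z ∈ S, lt y z := by
  by_contra hcon
  push Not at hcon
  have hex : ∀ y : T, ∃ b : K1, ht y = ν → ∀ z ∈ S, lt y z → ht z ≤ b := by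
    intro y
    by_cases hy : ht y = ν
    · by_cases hb : Big lt ht y
      · exact ⟨ν, fun _ z hz hyz => absurd hyz (hcon y hy hb z hz)⟩
      · unfold Big at hb
        push Not at hb
        obtain ⟨μ, hμ⟩ := hb
        refine ⟨μ, fun _ z _ hyz => ?_⟩
        by_contra h
        exact hμ z (not_le.1 h) hyz
    · exact ⟨ν, fun h => absurd h hy⟩
  choose b hb using hex
  obtain ⟨B, hB⟩ := bounded (b '' {y | ht y = ν} ∪ {ν})
    (((hT.level ν).image b).union (Set.countable_singleton ν))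
  obtain ⟨z, hz, hBz⟩ := hS B
  have hνz : ν < ht z := (hB ν (Or.inr rfl)).trans hBz
  obtain ⟨y, hy1, hy2⟩ := hT.pred z ν hνz
  have h1 := hb y hy1 z hz hy2
  have h2 := hB (b y) (Or.inl ⟨y, hy1, rfl⟩)
  exact absurd (h1.trans_lt h2) (not_lt.2 hBz.le)

theorem exists_big (hT : GTree lt ht) : ∃ x, Big lt ht x := by
  obtain ⟨y, _, h, _⟩ := exists_big_level hT (Classical.arbitrary K1) Set.univ (fun μ => by
    obtain ⟨b, hb⟩ := bounded {μ} (Set.countable_singleton μ)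
    obtain ⟨z, hz⟩ := hT.tall b
    exact ⟨z, trivial, by rw [hz]; exact hb μ rfl⟩)
  exact ⟨y, h⟩

theorem Big.up (hT : GTree lt ht) {x : T} (hx : Big lt ht x) (μ : K1) :
    ∃ y, μ < ht y ∧ lt x y ∧ Big lt ht y := by
  obtain ⟨ν, hν⟩ := bounded {μ, ht x} ((Set.countable_singleton _).insert _)
  obtain ⟨y, h1, h2, z, h3, h4⟩ := exists_big_level hT ν {z | lt x z} (fun μ' => by
    obtain ⟨z, hz1, hz2⟩ := hx μ'
    exact ⟨z, hz2, hz1⟩)
  refine ⟨y, by rw [h1]; exact hν μ (by simp), ?_, h2⟩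
  obtain ⟨x', h5, h6⟩ := hT.pred y (ht x) (by rw [h1]; exact hν _ (by simp))
  have := hT.unique x' x z (hT.trans _ _ _ h6 h4) h3 h5
  rwa [← this]

/-- an Aronszajn tree of the ground model which has no uncountable branch in any extension with
the countable chain condition -/
theorem exists_aronszajn : ∃ (T : Type) (lt : T → T → Prop) (ht : T → K1),
    GTree lt ht ∧ ∀ (P : Type) [Preorder P], Ccc P → ∀ p : P, p ∈ NoBranch (nm P lt) ht := by
  classical
  obtain ⟨e, he1, he2⟩ := Pool.Agent.Helper539.Auer.exists_coherent_injections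
    (W := K1) countable_Iio
  let cut : K1 → (K1 → ℕ) → K1 → ℕ := fun d g ξ => if ξ < d then g ξ else 0
  let T : Type := {p : K1 × (K1 → ℕ) // ∃ a, p.1 ≤ a ∧ p.2 = cut p.1 (e a)}
  let lt : T → T → Prop := fun s t => s.1.1 < t.1.1 ∧ ∀ η < s.1.1, s.1.2 η = t.1.2 η
  let ht : T → K1 := fun p => p.1.1
  have hext : ∀ s t : T, ht s = ht t → (∀ η < ht s, s.1.2 η = t.1.2 η) → s = t := by
    rintro ⟨⟨d, g⟩, a, ha, hg⟩ ⟨⟨d', g'⟩, a', ha', hg'⟩ h1 h2
    simp only [ht] at h1 h2 hg hg' ⊢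
    subst h1
    have : g = g' := by
      funext η
      by_cases hη : η < d
      · exact h2 η hη
      · rw [hg, hg']; simp [cut, hη]
    subst this
    rfl
  have hT : GTree lt ht := by
    refine ⟨fun x y z h1 h2 => ?_, fun x y h => h.1, fun x y z h1 h2 hh => ?_, fun y ξ hξ => ?_,
      fun ξ => ?_, fun ξ => ?_⟩
    · exact ⟨h1.1.trans h2.1, fun η hη => (h1.2 η hη).trans (h2.2 η (hη.trans h1.1))⟩
    · refine hext x y hh fun η hη => ?_
      have hη' : η < y.1.1 := by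
        have : η < ht y := hh ▸ hη
        exact this
      exact (h1.2 η hη).trans (h2.2 η hη').symm
    · obtain ⟨⟨d, g⟩, a, ha, hg⟩ := y
      simp only [ht] at hξ hg ha
      refine ⟨⟨(ξ, cut ξ (e a)), a, hξ.le.trans ha, rfl⟩, rfl, hξ, ?_⟩
      intro η hη
      have hη' : η < ξ := hη
      simp only [hg, cut, hη', hη'.trans hξ, if_true]
    · exact ⟨⟨(ξ, cut ξ (e ξ)), ξ, le_refl _, rfl⟩, rfl⟩
    · have h := he2 ξ
      refine Set.MapsTo.countable_of_injOn (f := fun p : T => fun η : Set.Iio ξ => p.1.2 η.1)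
        ?_ ?_ h
      · rintro ⟨⟨d, g⟩, a, ha, hg⟩ hd
        simp only [Set.mem_ofPred_eq, ht] at hd
        subst hd
        refine ⟨⟨a, ha⟩, ?_⟩
        funext η
        have hη : η.1 < d := η.2
        simp only at hg
        simp [hg, cut, hη]
      · intro x hx y hy hxy
        have hx' : ht x = ξ := hx
        have hy' : ht y = ξ := hy
        refine hext x y (hx'.trans hy'.symm) fun η hη => ?_
        exact congrFun hxy ⟨η, hx' ▸ hη⟩
  have hinj : ∀ t : T, Set.InjOn t.1.2 (Set.Iio t.1.1) := by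
    rintro ⟨⟨d, g⟩, a, ha, hg⟩ x hx y hy hxy
    have hx' : x < d := hx
    have hy' : y < d := hy
    simp only at hg hxy ha
    rw [hg] at hxy
    simp only [cut, hx', hy', if_true] at hxy
    exact he1 a (hx'.trans_le ha) (hy'.trans_le ha) hxy
  refine ⟨T, lt, ht, hT, ?_⟩
  intro P _ hP p q _ hq
  obtain ⟨r, _, B, hch, hB⟩ := mem_fex.1 hq q le_rfl
  choose suc hsuc using fun ξ : K1 => bounded {ξ} (Set.countable_singleton ξ)
  choose f hf x hx1 hx2 using fun ξ => mem_fex.1 (hB (suc ξ)) r le_rfl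
  have hx1 : ∀ ξ, ht (x ξ) = suc ξ := hx1
  obtain ⟨ξ, ξ', hne, hz, s, hs1, hs2⟩ := exists_compat_same hP (X := K1) (Z := ℕ)
    (by rw [mk_nat, aleph0_mul_aleph0, mk_K1]; exact aleph0_lt_aleph_one) f
    (fun ξ => (x ξ).1.2 ξ)
  have hlt : ∀ ξ, ξ < (x ξ).1.1 := fun ξ => by
    have h1 : (x ξ).1.1 = suc ξ := hx1 ξ
    rw [h1]
    exact hsuc ξ ξ rfl
  have key : ∀ ξ ξ', ξ ≠ ξ' → (x ξ).1.2 ξ = (x ξ').1.2 ξ' →
      (∀ η, η < (x ξ).1.1 → η < (x ξ').1.1 → (x ξ).1.2 η = (x ξ').1.2 η) →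
      (x ξ).1.1 ≤ (x ξ').1.1 → False := by
    intro ξ ξ' hne hz hag hle
    have h1 : (x ξ).1.2 ξ = (x ξ').1.2 ξ := hag ξ (hlt ξ) ((hlt ξ).trans_le hle)
    rw [h1] at hz
    exact hne (hinj (x ξ') ((hlt ξ).trans_le hle) (hlt ξ') hz)
  have hag : ∀ η, η < (x ξ).1.1 → η < (x ξ').1.1 → (x ξ).1.2 η = (x ξ').1.2 η := by
    by_cases hxx : x ξ = x ξ'
    · intro η _ _; rw [hxx]
    · have h1 : s ∈ meets (B (x ξ)) := meets_down (hx2 ξ) hs1
      have h2 : s ∈ meets (B (x ξ')) := meets_down (hx2 ξ') hs2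
      obtain ⟨s1, hs1', h3⟩ := mem_fimp.1 (hch (x ξ) (x ξ') hxx) s (hs1.trans (hf ξ)) ⟨h1, h2⟩
      have h4 : lt (x ξ) (x ξ') ∨ lt (x ξ') (x ξ) := by
        by_contra hcon
        push Not at hcon
        exact h3 s1 le_rfl ⟨fun u _ hu => hcon.1 (mem_nm.1 hu),
          fun u _ hu => hcon.2 (mem_nm.1 hu)⟩
      rcases h4 with h4 | h4
      · exact fun η hη _ => h4.2 η hη
      · exact fun η _ hη => (h4.2 η hη).symm
  rcases le_total (x ξ).1.1 (x ξ').1.1 with h | h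
  · exact key ξ ξ' hne hz hag h
  · exact key ξ' ξ hne.symm hz.symm (fun η h1 h2 => (hag η h2 h1).symm) h

end Pool.Agent.W876.Two.Tree
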