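import Mathlib
import Pool.Agent.W876.Two.Comb
import Pool.Agent.W876.Two.Tree

/-!
# The generic colouring has no tree uniformization
-/

namespace Pool.Agent.W876.Two.Main

open Cardinal Pool.Agent.Helper126.Sus.Forc Pool.Agent.Helper761.Om Pool.Agent.W876.Two.Poset
  Pool.Agent.W876.Two.Amal Pool.Agent.W876.Two.Comb Pool.Agent.W876.Two.Gen
  Pool.Agent.W876.Two.Tree

open Pool.Agent.W876.Prox.Omega (mk_K1 countable_Iio countable_Iic bounded bounded_finite press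
  bounded_below)

set_option linter.unusedSectionVars false

variable {J : Type} {C : K1 → Set K1} {g : J → K1 → K1 → ℕ → Set (Rep J)} [LinearOrder J]
  [WellFoundedLT J]

theorem lim_of {α : K1} (h : Order.IsSuccLimit α) : Lim α := by
  refine ⟨?_, fun a ha => ?_⟩
  · have h1 := h.1
    rw [not_isMin_iff] at h1
    exact h1
  · by_contra hcon
    push Not at hcon
    exact h.2 a ⟨ha, fun b hab hbα => absurd (hcon b hab) (not_le.2 hbα)⟩

theorem of_lim {α : K1} (h : Lim α) : Order.IsSuccLimit α := by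
  refine ⟨?_, fun a ha => ?_⟩
  · rw [not_isMin_iff]
    exact h.1
  · obtain ⟨b, hb1, hb2⟩ := h.2 a ha.1
    exact ha.2 hb1 hb2

/-- different ladders are almost disjoint -/
theorem inter_finite (hC : IsLadder C) {α α' : K1} (hα : Order.IsSuccLimit α)
    (hα' : Order.IsSuccLimit α') (hne : α ≠ α') : {ξ | ξ ∈ C α ∧ ξ ∈ C α'}.Finite := by
  rcases lt_or_gt_of_ne hne with h | h
  · exact (hC.finite α' hα' α h).subset fun ξ hξ => ⟨hξ.2, hC.lt α hα ξ hξ.1⟩
  · exact (hC.finite α hα α' h).subset fun ξ hξ => ⟨hξ.1, hC.lt α' hα' ξ hξ.2⟩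

theorem ladder_infinite (hC : IsLadder C) {α : K1} (hα : Order.IsSuccLimit α) :
    (C α).Infinite := by
  intro hfin
  obtain ⟨b, hb, hb'⟩ := bounded_below (lim_of hα) (C α) hfin
  obtain ⟨ξ, h1, h2⟩ := hC.cofinal α hα b hb
  exact absurd (hb' ξ h1 (hC.lt α hα ξ h1)) (not_le.2 h2)

/-! ### Density -/

theorem exists_bit (p : Cd C g) (j : J) (ξ : K1) : ∃ q ≤ p, q.1.f j (.bit ξ) ≠ none ∧
    ∀ α, q.1.f j (.pr α) = p.1.f j (.pr α) := by
  by_cases hn : p.1.f j (.bit ξ) = none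
  · by_cases hex : ∃ α, p.1.f j (.pr α) ≠ none ∧ ξ ∈ C α
    · obtain ⟨α, hα, hξ⟩ := hex
      obtain ⟨hlim, hOK⟩ := (p.2 j).1 α hα
      obtain ⟨q, h1, h2, v, _, h3⟩ := decide_val p j hOK hlim hξ
      obtain ⟨q', h4, h5, h6, _⟩ := add_tag q j (.bit ξ) (by rw [h2 j le_rfl]; exact hn) v
        (by simp) (by
          intro ξ' hξ' α' hα' hξα w hw e he hc
          have h7 : ξ = ξ' := Tag.bit.inj hξ'
          subst h7
          rw [h2 j le_rfl] at hα'
          by_cases hαα : α = α'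
          · subst hαα
            exact h3 w hw e he hc
          · exact (p.2 j).2 α α' hα hα' hαα ξ hξ hξα hn)
      refine ⟨q', h4.trans h1, by rw [h5]; simp, fun α' => ?_⟩
      rw [h6 _ (by simp), h2 j le_rfl]
    · obtain ⟨q', h4, h5, h6, _⟩ := add_tag p j (.bit ξ) hn 0 (by simp) (by
          intro ξ' hξ' α' hα' hξα
          have h7 : ξ = ξ' := Tag.bit.inj hξ'
          subst h7
          exact absurd ⟨α', hα', hξα⟩ hex)
      exact ⟨q', h4, by rw [h5]; simp, fun α' => h6 _ (by simp)⟩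
  · exact ⟨p, le_rfl, hn, fun _ => rfl⟩

theorem mono_ne {p q : Cd C g} (h : q ≤ p) {j : J} {τ : Tag} (hp : p.1.f j τ ≠ none) :
    q.1.f j τ ≠ none := by
  obtain ⟨v, hv⟩ := Option.ne_none_iff_exists'.1 hp
  rw [(h j).1 τ v hv]; simp

theorem exists_bits (p : Cd C g) (j : J) (A : Finset K1) : ∃ q ≤ p,
    (∀ ξ ∈ A, q.1.f j (.bit ξ) ≠ none) ∧ ∀ α, q.1.f j (.pr α) = p.1.f j (.pr α) := by
  classical
  induction A using Finset.induction_on with
  | empty => exact ⟨p, le_rfl, by simp, fun _ => rfl⟩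
  | insert ξ A _ ih =>
    obtain ⟨q, h1, h2, h3⟩ := ih
    obtain ⟨q', h4, h5, h6⟩ := exists_bit q j ξ
    refine ⟨q', h4.trans h1, fun ξ' hξ' => ?_, fun α => (h6 α).trans (h3 α)⟩
    rcases Finset.mem_insert.1 hξ' with rfl | hξ'
    · exact h5
    · exact mono_ne h4 (h2 ξ' hξ')

theorem exists_pr (hC : IsLadder C) (p : Cd C g) (j : J) {α : K1} (hα : Order.IsSuccLimit α)
    (hOK : OKn C (g j) (Data C g j)) : ∃ q ≤ p, q.1.f j (.pr α) ≠ none := by
  classical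
  by_cases hn : p.1.f j (.pr α) = none
  · have hfin : (⋃ α' ∈ {α' | p.1.f j (.pr α') ≠ none}, {ξ | ξ ∈ C α ∧ ξ ∈ C α'}).Finite := by
      refine Set.Finite.biUnion ?_ fun α' hα' => ?_
      · exact (fin_at p.1 j).preimage (f := fun a => Tag.pr a) fun x _ y _ h => by simpa using h
      · refine inter_finite hC hα ((p.2 j).1 α' hα').1 ?_
        rintro rfl
        exact hα' hn
    obtain ⟨q, h1, h2, h3⟩ := exists_bits p j hfin.toFinset
    obtain ⟨q', h4, h5, _⟩ := add_tag q j (.pr α) (by rw [h3]; exact hn) 0 (by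
      intro α1 hα1
      have h7 : α = α1 := Tag.pr.inj hα1
      subst h7
      refine ⟨⟨hα, hOK⟩, fun α' hα' ξ hξ hξ' => h2 ξ (hfin.mem_toFinset.2 ?_)⟩
      rw [h3] at hα'
      exact Set.mem_biUnion (x := α') hα' ⟨hξ, hξ'⟩) (by simp)
    exact ⟨q', h4.trans h1, by rw [h5]; simp⟩
  · exact ⟨p, le_rfl, hn⟩

/-! ### The generic colouring -/

/-- the generic colouring -/
def fG (C : K1 → Set K1) (g : J → K1 → K1 → ℕ → Set (Rep J)) (j0 : J) (α ξ : K1) (k : ℕ) :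
    Set (Cd C g) := {p | p.1.f j0 (.co α ξ) = some k}

theorem down_fG (j0 : J) (α ξ : K1) (k : ℕ) : ∀ p ∈ fG C g j0 α ξ k, ∀ q ≤ p,
    q ∈ fG C g j0 α ξ k := fun _ hp _ hq => (hq j0).1 _ _ hp

theorem fG_unique {j0 : J} {α ξ : K1} {k l : ℕ} {p : Cd C g} (h1 : p ∈ meets (fG C g j0 α ξ k))
    (h2 : p ∈ meets (fG C g j0 α ξ l)) : k = l := by
  obtain ⟨q, hq, h3⟩ := exists_of_meets (down_fG j0 α ξ k) h1
  obtain ⟨r, hr, h4⟩ := exists_of_meets (down_fG j0 α ξ l) (meets_down h2 hq)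
  have h5 := down_fG j0 α ξ k q h3 r hr
  have h6 : some k = some l := h5.symm.trans h4
  exact Option.some.inj h6

theorem isColouring_fG (j0 : J) (p : Cd C g) : p ∈ IsColouring C (fG C g j0) := by
  intro α ξ _
  refine ⟨mem_fex.2 fun q _ => ?_, fun k l => mem_fimp.2 fun q _ hq =>
    ⟨q, le_rfl, fG_unique hq.1 hq.2⟩⟩
  by_cases hn : q.1.f j0 (.co α ξ) = none
  · obtain ⟨q', h1, h2, _⟩ := add_tag q j0 (.co α ξ) hn 0 (by simp) (by simp)
    exact ⟨q', h1, 0, meets_of_mem h2⟩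
  · obtain ⟨v, hv⟩ := Option.ne_none_iff_exists'.1 hn
    exact ⟨q, le_rfl, v, meets_of_mem hv⟩

theorem fimp_meets {P : Type} [Preorder P] {φ N : Set P} {p : P} (h : p ∈ fimp φ (meets N))
    (hφ : ∀ q ≤ p, q ∈ φ) : p ∈ meets N :=
  meets_of_dense fun q hq => by
    obtain ⟨r, hr, h'⟩ := mem_fimp.1 h q hq (hφ q hq)
    exact ⟨r, hr, h'⟩

theorem not_unif (hC : IsLadder C) (j0 : J) {T : Type} {lt : T → T → Prop} {ht : T → K1}
    (hT : GTree lt ht) (p : Cd C g) : p ∈ fnot (Unif C (nm (Cd C g) lt) ht) := by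
  classical
  intro q _ hq
  obtain ⟨q1, hq1, hU⟩ := mem_fimp.1 (hq (fG C g j0)) q le_rfl (isColouring_fG j0 q)
  obtain ⟨q2, hq2, U, hU2⟩ := mem_fex.1 hU q1 le_rfl
  obtain ⟨q3, hq3, φ, ⟨hsub1, hsub2, hsub3⟩, hφ, hun⟩ := mem_fex.1 hU2 q2 le_rfl
  obtain ⟨r0, hr0, x0, hx0⟩ := mem_fex.1 hsub1 q3 le_rfl
  -- the conditions
  have hex : ∀ β : K1, ∃ (r : Cd C g) (x : T) (ζ : K1), Order.IsSuccLimit β → r ≤ q3 ∧
      ht x = ζ ∧ ζ ∈ C β ∧ r.1.f j0 (.co β ζ) = none ∧ r ∈ meets (U x) ∧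
      ∀ k, r ∈ fimp (meets (φ x k)) (meets (fG C g j0 β ζ k)) := by
    intro β
    by_cases hβ : Order.IsSuccLimit β
    · obtain ⟨r1, hr1, h1⟩ := mem_fimp.1 (hsub3 x0) r0 hr0 hx0
      obtain ⟨r2, hr2, y, hy1, _, hy2⟩ := mem_fex.1 (h1 β) r1 le_rfl
      obtain ⟨t, ht1, ht2⟩ := hT.pred y β hy1
      have h23 : r2 ≤ q3 := hr2.trans (hr1.trans hr0)
      obtain ⟨r3, hr3, ht3⟩ := mem_fimp.1 (hsub2 t y) r2 h23 ⟨mem_nm.2 ht2, hy2⟩
      obtain ⟨r4, hr4, h4⟩ := mem_fimp.1 (hun t (by rw [ht1]; exact hβ)) r3 (hr3.trans h23) ht3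
      obtain ⟨r5, hr5, F, hF⟩ := mem_fex.1 h4 r4 le_rfl
      have h53 : r5 ≤ q3 := hr5.trans (hr4.trans (hr3.trans h23))
      have hfin : ((F : Set K1) ∪ {ζ | r5.1.f j0 (.co β ζ) ≠ none}).Finite := by
        refine F.finite_toSet.union ?_
        exact (fin_at r5.1 j0).preimage (f := fun a => Tag.co β a)
          fun x _ y _ h => by simpa using h
      obtain ⟨ζ, hζ, hζn⟩ := (ladder_infinite hC hβ).exists_notMem_finite hfin
      rw [Set.mem_union, not_or] at hζn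
      have hζβ : ζ < β := hC.lt β hβ ζ hζ
      obtain ⟨x, hx1, hx2⟩ := hT.pred t ζ (by rw [ht1]; exact hζβ)
      refine ⟨r5, x, ζ, fun _ => ⟨h53, hx1, hζ, by simpa using hζn.2, ?_, fun k => ?_⟩⟩
      · refine fimp_meets (fimp_down (hsub2 x t) h53) fun r hr => ⟨mem_nm.2 hx2, ?_⟩
        exact meets_down ht3 (hr.trans (hr5.trans hr4))
      · refine mem_fimp.2 fun r hr hk => ?_
        obtain ⟨r', hr', h5⟩ := mem_fimp.1 (hF ζ ⟨by rw [ht1]; exact hζ, hζn.1⟩ x) r hr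
          ⟨hx1, mem_nm.2 hx2⟩
        obtain ⟨r'', hr'', h6⟩ := mem_fimp.1 (h5 k) r' le_rfl (meets_down hk hr')
        rw [ht1] at h6
        exact ⟨r'', hr''.trans hr', h6⟩
    · exact ⟨q3, x0, β, fun h => absurd h hβ⟩
  choose pc x ζ hpc using hex
  obtain ⟨⟨ζ0, y0⟩, hpress⟩ := press (E := K1 × T) (fun a => {e | e.1 ≤ a ∧ ht e.2 ≤ a})
    (by
      intro a
      have h1 : {y : T | ht y ≤ a}.Countable := by
        have h2 : {y : T | ht y ≤ a} = ⋃ ξ ∈ Set.Iic a, {y | ht y = ξ} := by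
          ext y
          simp
        rw [h2]
        exact (countable_Iic a).biUnion fun ξ _ => hT.level ξ
      refine ((countable_Iic a).prod h1).mono fun e he => ?_
      rw [Set.mem_prod]
      exact he)
    (fun δ e => ζ δ = e.1 ∧ x δ = e.2)
    (by
      intro δ hδ
      have hδ' := of_lim hδ
      obtain ⟨_, h1, h2, _⟩ := hpc δ hδ'
      exact ⟨ζ δ, hC.lt δ hδ' _ h2, (ζ δ, x δ), ⟨le_rfl, h1.le⟩, rfl, rfl⟩)
  obtain ⟨Γ, b, hb1, hb2, hb3, hG⟩ := exists_good hC j0 (Z := {δ | Lim δ ∧ ζ δ = ζ0 ∧ x δ = y0})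
    (fun a => by
      obtain ⟨δ, h1, h2, h3⟩ := hpress a
      exact ⟨δ, ⟨h2, h3⟩, h1.le⟩) pc
  have hlim : ∀ n, Order.IsSuccLimit (b n) := fun n => of_lim (hb2 n).1
  have hζ : ∀ n, ζ (b n) = ζ0 := fun n => (hb2 n).2.1
  have hx : ∀ n, x (b n) = y0 := fun n => (hb2 n).2.2
  have hζC : ∀ n, ζ0 ∈ C (b n) := fun n => by
    have := (hpc (b n) (hlim n)).2.2.1
    rwa [hζ n] at this
  have hζlt : ∀ n, ζ0 < b n := fun n => hC.lt _ (hlim n) _ (hζC n)
  have hco : ∀ n, (pc (b n)).1.f j0 (.co (b n) ζ0) = none := fun n => by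
    have := (hpc (b n) (hlim n)).2.2.2.1
    rwa [hζ n] at this
  choose p' h1 h2 h3 h4 using fun n => add_tag (pc (b n)) j0 (.co (b n) ζ0) (hco n) n
    (by simp) (by simp)
  have hother : ∀ n m, n ≠ m → (p' n).1.f j0 (.co (b m) ζ0) = none := by
    intro n m hnm
    rw [h3 n _ (fun h => hnm (hb1.injective (Tag.co.inj h).1).symm)]
    by_contra hcon
    refine hb3 n m hnm _ hcon ?_
    exact max_eq_left (hζlt m).le
  have hpr : ∀ n i α, (p' n).1.f i (.pr α) = (pc (b n)).1.f i (.pr α) := by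
    intro n i α
    by_cases hi : i = j0
    · rw [hi, h3 n _ (by simp)]
    · rw [h4 n i hi]
  have hbit : ∀ n i ξ, (p' n).1.f i (.bit ξ) = (pc (b n)).1.f i (.bit ξ) := by
    intro n i α
    by_cases hi : i = j0
    · rw [hi, h3 n _ (by simp)]
    · rw [h4 n i hi]
  have hG' : ∀ S, Good C Γ S (fun n => (p' n).1) := by
    intro S
    have hGS := hG S
    refine ⟨fun n hn m hm i τ ha hb => ?_, fun n hn m hm i α hα ξ hξ hb => ?_,
      fun n hn m hm hnm i α α' hα hα' hne ξ hξ hξ' ha hb => ?_⟩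
    · by_cases hnm : n = m
      · rw [hnm]
      by_cases hi : i = j0
      · subst hi
        have ha' : τ ≠ .co (b n) ζ0 := by
          rintro rfl
          exact hb (hother m n (Ne.symm hnm))
        have hb' : τ ≠ .co (b m) ζ0 := by
          rintro rfl
          exact ha (hother n m hnm)
        rw [h3 n _ ha'] at ha ⊢
        rw [h3 m _ hb'] at hb ⊢
        exact hGS.agree n hn m hm i τ ha hb
      · rw [h4 n i hi] at ha ⊢
        rw [h4 m i hi] at hb ⊢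
        exact hGS.agree n hn m hm i τ ha hb
    · rw [hpr] at hα
      rw [hbit] at hb ⊢
      exact hGS.bits n hn m hm i α hα ξ hξ hb
    · rw [hpr] at hα hα'
      rw [hbit] at ha hb
      exact hGS.conf n hn m hm hnm i α α' hα hα' hne ξ hξ hξ' ha hb
  obtain ⟨S', _, hS', r, hr⟩ := amal Γ.card Γ rfl (Finset.range (2 ^ Γ.card + 1)) p' (hG' _)
  rw [Finset.card_range] at hS'
  have hcard : 1 < S'.card := by
    by_contra hcon
    push Not at hcon
    have : S'.card * 2 ^ Γ.card ≤ 1 * 2 ^ Γ.card := Nat.mul_le_mul_right _ hcon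
    omega
  obtain ⟨n, hn, m, hm, hnm⟩ := Finset.one_lt_card.1 hcard
  have hrn : ∀ n ∈ S', r ≤ pc (b n) := fun n hn => (hr n hn).trans (h1 n)
  have hUy : r ∈ meets (U y0) := by
    have := (hpc (b n) (hlim n)).2.2.2.2.1
    rw [hx n] at this
    exact meets_down this (hrn n hn)
  have hr3 : r ≤ q3 := (hrn n hn).trans (hpc (b n) (hlim n)).1
  obtain ⟨r1, hr1, h5⟩ := mem_fimp.1 (hφ y0) r hr3 hUy
  obtain ⟨r2, hr2, k, hk⟩ := mem_fex.1 h5.1 r1 le_rfl
  have key : ∀ n ∈ S', ∃ r3 ≤ r2, k = n ∧ r3 ≤ r2 := by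
    intro n hn
    have h6 := (hpc (b n) (hlim n)).2.2.2.2.2 k
    rw [hx n, hζ n] at h6
    obtain ⟨r3, hr3, h7⟩ := mem_fimp.1 h6 r2 (hr2.trans (hr1.trans (hrn n hn))) hk
    refine ⟨r3, hr3, ?_, hr3⟩
    refine fG_unique h7 (meets_of_le (h2 n) ?_)
    exact hr3.trans (hr2.trans (hr1.trans (hr n hn)))
  obtain ⟨_, _, h8, _⟩ := key n hn
  obtain ⟨_, _, h9, _⟩ := key m hm
  exact hnm (h8.symm.trans h9)

end Pool.Agent.W876.Two.Main
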