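import Mathlib
import Pool.Agent.W876.Two.Main
import Pool.Agent.W876.Prox.Book

/-!
# Every colouring with two colours has a uniformization; bookkeeping
-/

namespace Pool.Agent.W876.Two.Unif

open Cardinal Pool.Agent.Helper126.Sus.Forc Pool.Agent.Helper761.Om Pool.Agent.W876.Two.Poset
  Pool.Agent.W876.Two.Amal Pool.Agent.W876.Two.Comb Pool.Agent.W876.Two.Gen
  Pool.Agent.W876.Two.Tree Pool.Agent.W876.Two.Main

open Pool.Agent.W876.Prox.Omega (mk_K1 countable_Iio countable_Iic bounded bounded_finite press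
  bounded_below)

set_option linter.unusedSectionVars false

variable {J : Type} {C : K1 → Set K1} {g : J → K1 → K1 → ℕ → Set (Rep J)} [LinearOrder J]
  [WellFoundedLT J]

/-- the supports of at most `κ` conditions are bounded -/
theorem exists_below {κ : Cardinal.{0}} (hκ : ℵ₀ ≤ κ)
    (hcof : ∀ S : Set J, #S ≤ κ → ∃ b, ∀ s ∈ S, s < b)
    {A : Set (Cd C g)} (hA : #A ≤ κ) : ∃ b : J, ∀ a ∈ A, ∀ b' ≥ b, Below a.1 b' := by
  obtain ⟨b, hb⟩ := hcof (⋃ a : A, Prod.fst '' {x : J × Tag | a.1.1.f x.1 x.2 ≠ none}) (by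
    refine (mk_iUnion_le_sum_mk).trans ?_
    refine (Cardinal.sum_le_sum _ (fun _ => ℵ₀) fun a => ?_).trans ?_
    · exact Cardinal.le_aleph0_iff_set_countable.2 ((a.1.1.fin.image _).countable)
    · rw [Cardinal.sum_const']
      exact (mul_le_mul' hA hκ).trans (mul_eq_self hκ).le)
  refine ⟨b, fun a ha b' hb' i hi τ => ?_⟩
  by_contra hcon
  have := hb i (Set.mem_iUnion.2 ⟨⟨a, ha⟩, (i, τ), hcon, rfl⟩)
  exact absurd (hb'.trans hi) (not_le.2 this)

theorem down_bit (j : J) (ξ : K1) (k : ℕ) : ∀ p ∈ {p : Cd C g | p.1.f j (.bit ξ) = some k},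
    ∀ q ≤ p, q ∈ {p : Cd C g | p.1.f j (.bit ξ) = some k} := fun _ hp _ hq => (hq j).1 _ _ hp

theorem unif_two (hC : IsLadder C) [Nonempty J]
    (hcof : ∀ S : Set J, #S ≤ ℵ_ 1 → ∃ b, ∀ s ∈ S, s < b)
    (hg : ∀ N : K1 → K1 → ℕ → Set (Rep J), (∀ α ξ k, (N α ξ k).Countable) →
      ∀ b, ∃ j, b < j ∧ g j = N)
    {T : Type} {lt : T → T → Prop} {ht : T → K1} (hT : GTree lt ht) (p : Cd C g) :
    p ∈ UnifTwo C (nm (Cd C g) lt) ht := by
  classical
  have hP : Ccc (Cd C g) := fun {Y} f hY => cond_ccc hC f hY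
  intro f
  refine mem_fimp.2 fun q _ hq => ⟨q, le_rfl, ?_⟩
  obtain ⟨hcol, htwo⟩ := hq
  choose A hA1 hA2 hA3 using fun (α ξ : K1) (k : ℕ) =>
    exists_antichain hP {a : Cd C g | a ≤ q ∧ a ∈ meets (f α ξ k)}
  have h01 : ℵ₀ ≤ ℵ_ 1 := aleph0_le_aleph 1
  obtain ⟨b, hb⟩ := exists_below h01 hcof (A := ⋃ x : K1 × K1 × ℕ, A x.1 x.2.1 x.2.2) (by
      refine (mk_iUnion_le_sum_mk).trans ?_
      refine (Cardinal.sum_le_sum _ (fun _ => ℵ₀) fun x => ?_).trans ?_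
      · exact Cardinal.le_aleph0_iff_set_countable.2 (hA2 _ _ _)
      · rw [Cardinal.sum_const']
        refine (mul_le_mul' ?_ h01).trans (mul_eq_self h01).le
        simp only [mk_prod, lift_id, mk_K1, mk_nat]
        exact (mul_le_mul' le_rfl ((mul_le_mul' le_rfl h01).trans (mul_eq_self h01).le)).trans
          (mul_eq_self h01).le)
  let N : K1 → K1 → ℕ → Set (Rep J) := fun α ξ k => Subtype.val '' A α ξ k
  obtain ⟨j, hbj, hj⟩ := hg N (fun α ξ k => (hA2 α ξ k).image _) b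
  have hbelow : ∀ α ξ k, ∀ a ∈ A α ξ k, Below a.1 j := fun α ξ k a ha =>
    hb a (Set.mem_iUnion.2 ⟨(α, ξ, k), ha⟩) j hbj.le
  have hmeet : ∀ {α ξ k}, ∀ a ∈ A α ξ k, a ≤ q ∧ a ∈ meets (f α ξ k) :=
    fun {α ξ k} a ha => hA1 α ξ k ha
  have hval : ∀ {α ξ : K1}, Order.IsSuccLimit α → ξ ∈ C α → ∀ s ≤ q,
      ∃ s' ≤ s, ∃ k < 2, s' ∈ meets (f α ξ k) := by
    intro α ξ hα hξ s hs
    obtain ⟨s1, h1, k, h2⟩ := mem_fex.1 (hcol α ξ ⟨hα, hξ⟩).1 s hs
    obtain ⟨s2, h3, h4⟩ := mem_fimp.1 (htwo α ξ ⟨hα, hξ⟩ k) s1 (h1.trans hs) h2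
    exact ⟨s1, h1, k, h4, h2⟩
  have huniq : ∀ {α ξ : K1}, Order.IsSuccLimit α → ξ ∈ C α → ∀ s ≤ q, ∀ {k l : ℕ},
      s ∈ meets (f α ξ k) → s ∈ meets (f α ξ l) → k = l := by
    intro α ξ hα hξ s hs k l h1 h2
    obtain ⟨_, _, h3⟩ := mem_fimp.1 ((hcol α ξ ⟨hα, hξ⟩).2 k l) s hs ⟨h1, h2⟩
    exact h3
  have hOK : OKn C (g j) (Data C g j) := by
    rw [hj]
    intro α ξ hα hξ rr hrr
    obtain ⟨r', rfl⟩ := exists_cd hrr
    by_cases hcomp : ∃ s, s ≤ r' ∧ s ≤ q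
    · obtain ⟨s, hs1, hs2⟩ := hcomp
      obtain ⟨s', hs', k, hk, hm⟩ := hval hα hξ s hs2
      refine ⟨res s'.1 (Set.Iio j), res_mem_V s' j, ?_, k, hk, fun w hw e he hc => ?_⟩
      · rw [le_D]
        intro i hi
        exact Le_res_left (isLowerSet_Iio j) ((hs'.trans hs1) i) hi
      · obtain ⟨a, ha, rfl⟩ := he
        have hc' : CC C g j s'.1 a.1 :=
          (CC_congr C g fun i' h' => res_mem (T := Set.Iio j) h').1 hc
        obtain ⟨u, hu1, hu2⟩ := (CC_iff_compat (hbelow _ _ _ a ha)).1 hc'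
        have hu3 : u ≤ a := hu2
        exact hw (huniq hα hξ u (hu3.trans (hmeet a ha).1) (meets_down (hmeet a ha).2 hu3)
          (meets_down hm hu1))
    · refine ⟨r'.1, hrr, ?_, 0, by norm_num, fun w _ e he hc => ?_⟩
      · rw [le_D]
        exact fun i _ => Le_of_eq C g rfl
      · obtain ⟨a, ha, rfl⟩ := he
        obtain ⟨u, hu1, hu2⟩ := (CC_iff_compat (hbelow _ _ _ a ha)).1 hc
        have hu3 : u ≤ a := hu2
        exact hcomp ⟨u, hu1, hu3.trans (hmeet a ha).1⟩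
  refine mem_fex.2 fun q' hq' => ⟨q', le_rfl, fun x => fground (Big lt ht x),
    mem_fex.2 fun q1 hq1 => ⟨q1, le_rfl, fun x k => {p | p.1.f j (.bit (ht x)) = some k},
      ⟨?_, fun x y => ?_, fun x => ?_⟩, fun x => ?_, fun y hy => ?_⟩⟩
  · obtain ⟨x, hx⟩ := exists_big hT
    exact mem_fex.2 fun r _ => ⟨r, le_rfl, x, meets_fground.2 hx⟩
  · exact mem_fimp.2 fun r _ hr => ⟨r, le_rfl, meets_fground.2
      (Big.pred hT (mem_nm.1 hr.1) (meets_fground.1 hr.2))⟩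
  · refine mem_fimp.2 fun r _ hr => ⟨r, le_rfl, fun μ => mem_fex.2 fun s _ => ?_⟩
    obtain ⟨y, h1, h2, h3⟩ := Big.up hT (meets_fground.1 hr) μ
    exact ⟨s, le_rfl, y, h1, mem_nm.2 h2, meets_fground.2 h3⟩
  · refine mem_fimp.2 fun r _ _ => ⟨r, le_rfl, mem_fex.2 fun s _ => ?_, fun k l =>
      mem_fimp.2 fun s _ hs => ⟨s, le_rfl, ?_⟩⟩
    · obtain ⟨s', h1, h2, _⟩ := exists_bit s j (ht x)
      obtain ⟨v, hv⟩ := Option.ne_none_iff_exists'.1 h2
      exact ⟨s', h1, v, meets_of_mem hv⟩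
    · obtain ⟨s1, h1, h2⟩ := exists_of_meets (down_bit j (ht x) k) hs.1
      obtain ⟨s2, h3, h4⟩ := exists_of_meets (down_bit j (ht x) l) (meets_down hs.2 h1)
      have h5 : s2.1.f j (.bit (ht x)) = some k := (h3 j).1 _ _ h2
      have h6 : some k = some l := h5.symm.trans h4
      exact Option.some.inj h6
  · refine mem_fimp.2 fun r hr _ => ⟨r, le_rfl, mem_fex.2 fun r1 hr1 => ?_⟩
    obtain ⟨r2, hr2, hpr⟩ := exists_pr hC r1 j hy hOK
    have hfin : {ξ | r2.1.f j (.bit ξ) ≠ none}.Finite :=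
      (fin_at r2.1 j).preimage (f := fun a => Tag.bit a) fun x _ y _ h => by simpa using h
    refine ⟨r2, hr2, hfin.toFinset, fun ξ hξ x => mem_fimp.2 fun r3 hr3 h3 => ⟨r3, le_rfl,
      fun k => mem_fimp.2 fun r4 hr4 h4 => ?_⟩⟩
    obtain ⟨hx, _⟩ := h3
    have hx : ht x = ξ := hx
    obtain ⟨r5, hr5, h5⟩ := exists_of_meets (down_bit j (ht x) k) h4
    rw [hx] at h5
    have h5 : r5.1.f j (.bit ξ) = some k := h5
    have hn : r2.1.f j (.bit ξ) = none := by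
      by_contra hcon
      exact hξ.2 (hfin.mem_toFinset.2 hcon)
    have h52 : r5 ≤ r2 := hr5.trans (hr4.trans hr3)
    have h5q : r5 ≤ q := h52.trans (hr2.trans (hr1.trans (hr.trans (hq1.trans hq'))))
    have hdec := (h52 j).2 (ht y) hpr ξ hξ.1 k h5 hn
    obtain ⟨r6, hr6, k', _, h6⟩ := hval hy hξ.1 r5 h5q
    by_cases hkk : k' = k
    · subst hkk
      exact ⟨r6, hr6.trans hr5, h6⟩
    · exfalso
      obtain ⟨a, ha, u, hu1, hu2⟩ := hA3 (ht y) ξ k' r6 ⟨hr6.trans h5q, h6⟩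
      refine hdec k' hkk a.1 ?_ (CC_of_le (hu2.trans hr6) (CC_of_Le (fun i => hu1 i) j))
      rw [hj]
      exact ⟨a, ha, rfl⟩

/-! ### Bookkeeping -/

theorem mk_arrow_le {A X : Type} {κ : Cardinal.{0}} (hκ : ℵ₀ ≤ κ) (hA : #A ≤ κ)
    (hX : #X ≤ 2 ^ κ) : #(A → X) ≤ 2 ^ κ := by
  rw [← power_def]
  calc #X ^ #A ≤ (2 ^ κ) ^ #A := power_le_power_right hX
    _ = 2 ^ (κ * #A) := (power_mul).symm
    _ ≤ 2 ^ κ := power_le_power_left two_ne_zero ((mul_le_mul' le_rfl hA).trans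
        (mul_eq_self hκ).le)

theorem mk_tag_le {lam : Cardinal.{0}} (hlam : ℵ_ 1 ≤ lam) : #Tag ≤ lam := by
  have h0 : ℵ₀ ≤ lam := (aleph0_le_aleph 1).trans hlam
  let f : Tag → ((K1 × K1) ⊕ K1) ⊕ K1 := fun τ => match τ with
    | .co x n => Sum.inl (Sum.inl (x, n))
    | .bit x => Sum.inl (Sum.inr x)
    | .pr x => Sum.inr x
  have hf : Function.Injective f := by
    intro τ τ' h
    cases τ <;> cases τ' <;> simp_all [f]
  refine (mk_le_of_injective hf).trans ?_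
  have hK : #K1 ≤ lam := by rw [mk_K1]; exact hlam
  have h1 : #(K1 × K1) ≤ lam := by
    rw [mk_prod, lift_id]
    exact (mul_le_mul' hK hK).trans (mul_eq_self h0).le
  simp only [mk_sum, lift_id]
  have h3 : lam + lam = lam := add_eq_self h0
  calc #(K1 × K1) + #K1 + #K1 ≤ (lam + lam) + lam :=
        add_le_add (add_le_add h1 hK) hK
    _ = lam := by rw [h3, h3]

theorem mk_rep_le {J : Type} {lam : Cardinal.{0}} (hlam : ℵ_ 1 ≤ lam)
    (hJ : #J ≤ lam) : #(Rep J) ≤ lam := by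
  classical
  have h0 : ℵ₀ ≤ lam := (aleph0_le_aleph 1).trans hlam
  have hfin : ∀ r : Rep J, {x : (J × Tag) × ℕ | r.f x.1.1 x.1.2 = some x.2}.Finite := by
    intro r
    refine Set.Finite.of_finite_image (f := Prod.fst) (r.fin.subset ?_) ?_
    · rintro _ ⟨x, hx, rfl⟩
      show r.f x.1.1 x.1.2 ≠ none
      rw [hx]; simp
    · rintro ⟨x, v⟩ hx ⟨y, w⟩ hy hxy
      have hxy' : x = y := hxy
      subst hxy'
      have h1 : r.f x.1 x.2 = some v := hx
      have h2 : r.f x.1 x.2 = some w := hy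
      rw [h1] at h2
      rw [Option.some.inj h2]
  have hinj : Function.Injective fun r : Rep J => (hfin r).toFinset := by
    intro r r' h
    have h1 : ∀ i τ v, r.f i τ = some v ↔ r'.f i τ = some v := by
      intro i τ v
      have := congrArg (fun S => ((i, τ), v) ∈ S) h
      simpa using this
    ext1
    funext i τ
    cases hr : r.f i τ with
    | some v => exact ((h1 i τ v).1 hr).symm
    | none =>
      cases hr' : r'.f i τ with
      | some v =>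
        rw [← h1] at hr'
        rw [hr] at hr'
        exact absurd hr' (by simp)
      | none => rfl
  refine (mk_le_of_injective hinj).trans ?_
  have hX : #((J × Tag) × ℕ) ≤ lam := by
    simp only [mk_prod, lift_id, mk_nat]
    exact (mul_le_mul' ((mul_le_mul' hJ (mk_tag_le hlam)).trans (mul_eq_self h0).le) h0).trans
      (mul_eq_self h0).le
  rcases finite_or_infinite ((J × Tag) × ℕ) with h | h
  · have : Finite (Finset ((J × Tag) × ℕ)) := inferInstance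
    exact ((mk_lt_aleph0).le).trans h0
  · rw [mk_finset_of_infinite]; exact hX

open Pool.Agent.W876.Prox.Book (exists_enum Len mk_Len len_cof len_Iic)

/-- the bookkeeping function -/
theorem exists_book : ∃ g : Len → K1 → K1 → ℕ → Set (Rep Len),
    ∀ N : K1 → K1 → ℕ → Set (Rep Len), (∀ α ξ k, (N α ξ k).Countable) →
      ∀ b, ∃ j, b < j ∧ g j = N := by
  have h1 : ℵ₀ ≤ ℵ_ 1 := aleph0_le_aleph 1
  have hlam : ℵ_ 1 ≤ 2 ^ ℵ_ 1 := (cantor _).le
  have h0 : ℵ₀ ≤ 2 ^ ℵ_ 1 := h1.trans hlam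
  have hR : #(Rep Len) ≤ 2 ^ ℵ_ 1 := mk_rep_le hlam mk_Len.le
  have hO : #(Option (Rep Len)) ≤ 2 ^ ℵ_ 1 := by
    rw [mk_option]
    exact (add_le_add hR (one_le_aleph0.trans h0)).trans (add_eq_self h0).le
  have hK : #K1 ≤ ℵ_ 1 := by rw [mk_K1]
  have hNat : #ℕ ≤ ℵ_ 1 := by rw [mk_nat]; exact h1
  have hNm : #(Len × (K1 → K1 → ℕ → ℕ → Option (Rep Len))) ≤ #Len := by
    rw [mk_prod, lift_id, lift_id, mk_Len]
    refine (mul_le_mul' le_rfl ?_).trans (mul_eq_self h0).le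
    exact mk_arrow_le h1 hK (mk_arrow_le h1 hK (mk_arrow_le h1 hNat (mk_arrow_le h1 hNat hO)))
  obtain ⟨F⟩ := hNm
  have hne : Nonempty Len := by
    rw [← mk_ne_zero_iff, mk_Len]
    exact (aleph0_pos.trans_le h0).ne'
  let f := Function.invFun F
  have hf : ∀ N, f (F N) = N := Function.leftInverse_invFun F.injective
  refine ⟨fun j α ξ k => {r | ∃ n, (f j).2 α ξ k n = some r}, fun N hN b => ?_⟩
  choose h hh using fun α ξ k => exists_enum (hN α ξ k)
  have hbig : ∃ x, b < F (x, h) := by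
    by_contra hcon
    push Not at hcon
    have h2 : #Len ≤ #(Set.Iic b) := by
      refine mk_le_of_injective (f := fun x => (⟨F (x, h), hcon x⟩ : Set.Iic b)) ?_
      intro x y hxy
      have h3 : F (x, h) = F (y, h) := congrArg Subtype.val hxy
      exact (Prod.mk.inj (F.injective h3)).1
    exact absurd h2 (not_le.2 (len_Iic b))
  obtain ⟨x, hx⟩ := hbig
  refine ⟨F (x, h), hx, ?_⟩
  funext α ξ k
  ext r
  rw [hh α ξ k r]
  simp only [hf, Set.mem_ofPred_eq]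

end Pool.Agent.W876.Two.Unif
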